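import Pool.Agent.N916.BRcomb

/-!
# Project BR, part SEC: second moments of the derivatives of a wave
-/

set_option autoImplicit false
open MeasureTheory Filter Topology Complex ProbabilityTheory
open scoped ContDiff

namespace Pool.Agent.N916.BR

open Pool.Agent.N661.BR
open Pool.Agent.W745.RW (lap dx dy TF Dp Dm W Sol Sys)
open Pool.Agent.Y265.RW (sy rr sy_ne sy_norm sy_cont rr_cont)

noncomputable section

theorem rr_sub (w w' : ℂ) (α : ℝ) : rr (w - w') α = rr w α - rr w' α := by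
  unfold rr
  rw [Complex.sub_re, Complex.sub_im]
  ring

theorem rr_pi (w : ℂ) (α : ℝ) : rr w (α + Real.pi) = - rr w α := by
  unfold rr
  rw [Real.cos_add_pi, Real.sin_add_pi]
  ring

theorem sy_pi (α : ℝ) : sy (α + Real.pi) = - sy α := by
  rw [sy_eq, sy_eq, Real.cos_add_pi, Real.sin_add_pi]
  push_cast
  ring

theorem cov_rr (ν : Measure ℝ) (w w' : ℂ) :
    cov ν (w - w') = ∫ α, Real.cos (rr w α - rr w' α) ∂ν := by
  unfold cov
  refine integral_congr_ae (Eventually.of_forall fun α => ?_)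
  simp only
  rw [← rr_sub]
  rfl

/-- the mixed second moment on the level of symbols -/
theorem sb_zero (α : ℝ) (w : ℂ) : sb α (0, w) = Complex.exp ((rr w α : ℂ) * I) := by
  unfold sb
  simp

theorem Y_zero (f : MW) (s : Cb) (hs : s ∈ PK 0) :
    Y f s = ∑ p ∈ s.support, s p * (f p.2 : ℂ) := by
  unfold Y
  rw [Finsupp.linearCombination_apply, Finsupp.sum]
  refine Finset.sum_congr rfl fun p hp => ?_
  have h1 : p.1.natAbs ≤ 0 := (Finsupp.mem_supported ℂ s).1 hs hp
  have h2 : p.1 = 0 := by omega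
  rw [smul_eq_mul, h2, W_zero]

theorem tau_zero (α : ℝ) (s : Cb) (hs : s ∈ PK 0) :
    tau α s = ∑ p ∈ s.support, s p * Complex.exp ((rr p.2 α : ℂ) * I) := by
  unfold tau
  rw [Finsupp.linearCombination_apply, Finsupp.sum]
  refine Finset.sum_congr rfl fun p hp => ?_
  have h1 : p.1.natAbs ≤ 0 := (Finsupp.mem_supported ℂ s).1 hs hp
  have h2 : p.1 = 0 := by omega
  rw [smul_eq_mul]
  unfold sb
  rw [h2, zpow_zero, one_mul]

theorem nsq_sum (S : Finset (ℤ × ℂ)) (c x : ℤ × ℂ → ℂ) : ‖∑ p ∈ S, c p * x p‖ ^ 2 =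
    ∑ p ∈ S, ∑ q ∈ S, (c p * (starRingEnd ℂ) (c q) * (x p * (starRingEnd ℂ) (x q))).re := by
  have h : ((‖∑ p ∈ S, c p * x p‖ ^ 2 : ℝ) : ℂ) =
      ∑ p ∈ S, ∑ q ∈ S, c p * (starRingEnd ℂ) (c q) * (x p * (starRingEnd ℂ) (x q)) := by
    rw [← Complex.normSq_eq_norm_sq, ← Complex.mul_conj, map_sum, Finset.sum_mul_sum]
    refine Finset.sum_congr rfl fun p _ => Finset.sum_congr rfl fun q _ => ?_
    rw [map_mul]
    ring
  have h2 := congrArg Complex.re h
  rw [Complex.ofReal_re] at h2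
  rw [h2, Complex.re_sum]
  exact Finset.sum_congr rfl fun p _ => Complex.re_sum _ _

theorem conj_exp (x : ℝ) : (starRingEnd ℂ) (Complex.exp ((x : ℂ) * I)) =
    Complex.exp ((-x : ℝ) * I) := by
  rw [← Complex.exp_conj, map_mul, Complex.conj_I, Complex.conj_ofReal]
  push_cast
  ring_nf

theorem exp_pair (x y : ℝ) : Complex.exp ((x : ℂ) * I) * (starRingEnd ℂ) (Complex.exp ((y : ℂ) * I))
    = Complex.exp (((x - y : ℝ) : ℂ) * I) := by
  rw [conj_exp, ← Complex.exp_add]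
  push_cast
  ring_nf

/-- the pointwise identity of symbols -/
theorem symb_id (S : Finset (ℤ × ℂ)) (c : ℤ × ℂ → ℂ) (r : ℤ × ℂ → ℝ) :
    (‖∑ p ∈ S, c p * Complex.exp ((r p : ℂ) * I)‖ ^ 2 +
      ‖∑ p ∈ S, c p * Complex.exp (((-r p : ℝ) : ℂ) * I)‖ ^ 2) / 2 =
    ∑ p ∈ S, ∑ q ∈ S, (c p * (starRingEnd ℂ) (c q)).re * Real.cos (r p - r q) := by
  rw [nsq_sum S c (fun p => Complex.exp ((r p : ℂ) * I)),
    nsq_sum S c (fun p => Complex.exp (((-r p : ℝ) : ℂ) * I)), ← Finset.sum_add_distrib,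
    Finset.sum_div]
  refine Finset.sum_congr rfl fun p _ => ?_
  rw [← Finset.sum_add_distrib, Finset.sum_div]
  refine Finset.sum_congr rfl fun q _ => ?_
  rw [exp_pair, exp_pair, ← Complex.add_re, ← mul_add]
  have h : Complex.exp (((r p - r q : ℝ) : ℂ) * I) + Complex.exp (((-r p - -r q : ℝ) : ℂ) * I) =
      ((2 * Real.cos (r p - r q) : ℝ) : ℂ) := by
    have : (-r p - -r q : ℝ) = -(r p - r q) := by ring
    rw [this, Complex.exp_mul_I, Complex.exp_mul_I]
    push_cast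
    rw [Complex.cos_neg, Complex.sin_neg]
    ring
  rw [h, Complex.re_mul_ofReal]
  ring

section
variable {μ : Measure MW} [IsProbabilityMeasure μ] {m : ℝ} {ν : Measure ℝ} [IsProbabilityMeasure ν]

omit [IsProbabilityMeasure μ] in
theorem int_ff (hI : ∀ w : ℂ, Integrable (fun f : MW => f w ^ 2) μ) (w w' : ℂ) :
    Integrable (fun f : MW => f w * f w') μ := by
  have h : ∀ w : ℂ, MemLp (fun f : MW => f w) 2 μ := fun w =>
    (memLp_two_iff_integrable_sq (meas_eval w).aestronglyMeasurable).2 (hI w)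
  exact (h w).integrable_mul (h w')

omit [IsProbabilityMeasure μ] in
theorem sec_zero_eq (hI : ∀ w : ℂ, Integrable (fun f : MW => f w ^ 2) μ)
    (h2 : ∀ w w' : ℂ, ∫ f : MW, f w * f w' ∂μ = m * cov ν (w - w')) (s : Cb) (hs : s ∈ PK 0) :
    Integrable (fun f : MW => ‖Y f s‖ ^ 2) μ ∧
    ∫ f : MW, ‖Y f s‖ ^ 2 ∂μ = m * ∫ α, (‖tau α s‖ ^ 2 + ‖tau (α + Real.pi) s‖ ^ 2) / 2 ∂ν := by
  have e1 : (fun f : MW => ‖Y f s‖ ^ 2) = fun f : MW => ∑ p ∈ s.support, ∑ q ∈ s.support,
      (s p * (starRingEnd ℂ) (s q)).re * (f p.2 * f q.2) := by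
    funext f
    rw [Y_zero f s hs, nsq_sum]
    refine Finset.sum_congr rfl fun p _ => Finset.sum_congr rfl fun q _ => ?_
    rw [Complex.conj_ofReal, ← Complex.ofReal_mul, Complex.re_mul_ofReal]
  have e2 : (fun α : ℝ => (‖tau α s‖ ^ 2 + ‖tau (α + Real.pi) s‖ ^ 2) / 2) = fun α =>
      ∑ p ∈ s.support, ∑ q ∈ s.support,
        (s p * (starRingEnd ℂ) (s q)).re * Real.cos (rr p.2 α - rr q.2 α) := by
    funext α
    rw [tau_zero α s hs, tau_zero (α + Real.pi) s hs]
    simp only [rr_pi]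
    exact symb_id s.support s (fun p => rr p.2 α)
  have hc : ∀ p q : ℤ × ℂ, Integrable (fun α => (s p * (starRingEnd ℂ) (s q)).re *
      Real.cos (rr p.2 α - rr q.2 α)) ν := by
    intro p q
    refine Integrable.const_mul ?_ _
    refine (integrable_const (1:ℝ)).mono' ?_ ?_
    · exact (Real.continuous_cos.comp ((rr_cont p.2).sub (rr_cont q.2))).aestronglyMeasurable
    · exact Eventually.of_forall fun α => by rw [Real.norm_eq_abs]; exact Real.abs_cos_le_one _
  constructor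
  · rw [e1]
    exact integrable_finsetSum _ fun p _ => integrable_finsetSum _ fun q _ =>
      (int_ff hI p.2 q.2).const_mul _
  · rw [e1, e2, integral_finsetSum _ fun p _ => integrable_finsetSum _ fun q _ =>
      (int_ff hI p.2 q.2).const_mul _, integral_finsetSum _ fun p _ =>
        integrable_finsetSum _ fun q _ => hc p q, Finset.mul_sum]
    refine Finset.sum_congr rfl fun p _ => ?_
    rw [integral_finsetSum _ fun q _ => (int_ff hI p.2 q.2).const_mul _,
      integral_finsetSum _ fun q _ => hc p q, Finset.mul_sum]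
    refine Finset.sum_congr rfl fun q _ => ?_
    rw [integral_const_mul, integral_const_mul, h2, cov_rr]
    ring

omit [IsProbabilityMeasure μ] in
theorem m_nonneg (h2 : ∀ w w' : ℂ, ∫ f : MW, f w * f w' ∂μ = m * cov ν (w - w')) : 0 ≤ m := by
  have h := h2 0 0
  have e : cov ν ((0 : ℂ) - 0) = 1 := by
    unfold cov
    simp
  rw [e, mul_one] at h
  rw [← h]
  exact integral_nonneg fun f => mul_self_nonneg _

theorem sec_ind (hI : ∀ w : ℂ, Integrable (fun f : MW => f w ^ 2) μ)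
    (h2 : ∀ w w' : ℂ, ∫ f : MW, f w * f w' ∂μ = m * cov ν (w - w')) (K : ℕ) :
    ∀ s ∈ PK K, ∀ B : ℝ, 0 ≤ B → (∀ α, ‖tau α s‖ ≤ B) →
      ∫⁻ f : MW, ENNReal.ofReal (‖Y f s‖ ^ 2) ∂μ ≤ ENNReal.ofReal (m * B ^ 2) := by
  have hm := m_nonneg h2
  induction K with
  | zero =>
    intro s hs B hB hb
    obtain ⟨h3, h4⟩ := sec_zero_eq hI h2 s hs
    rw [← ofReal_integral_eq_lintegral_ofReal h3 (Eventually.of_forall fun f => by positivity), h4]
    refine ENNReal.ofReal_le_ofReal (mul_le_mul_of_nonneg_left ?_ hm)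
    calc ∫ α, (‖tau α s‖ ^ 2 + ‖tau (α + Real.pi) s‖ ^ 2) / 2 ∂ν ≤ ∫ _ : ℝ, B ^ 2 ∂ν := by
          refine integral_mono_of_nonneg (Eventually.of_forall fun α => by positivity)
            (integrable_const _) (Eventually.of_forall fun α => ?_)
          have h5 : ‖tau α s‖ ^ 2 ≤ B ^ 2 := pow_le_pow_left₀ (norm_nonneg _) (hb α) 2
          have h6 : ‖tau (α + Real.pi) s‖ ^ 2 ≤ B ^ 2 := pow_le_pow_left₀ (norm_nonneg _) (hb _) 2
          simp only
          linarith
      _ = B ^ 2 := by simp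
  | succ K ih =>
    intro s hs B hB hb
    obtain ⟨t, ht, hY, C, hC, htau⟩ := approx K s hs
    have h3 : ∀ n, ∫⁻ f : MW, ENNReal.ofReal (‖Y f (t n)‖ ^ 2) ∂μ ≤
        ENNReal.ofReal (m * (B + C * (1 / ((n : ℝ) + 1))) ^ 2) := by
      intro n
      refine ih (t n) (ht n) _ (by positivity) fun α => ?_
      calc ‖tau α (t n)‖ = ‖tau α s + (tau α (t n) - tau α s)‖ := by rw [add_sub_cancel]
        _ ≤ ‖tau α s‖ + ‖tau α (t n) - tau α s‖ := norm_add_le _ _
        _ ≤ _ := add_le_add (hb α) (htau n α)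
    have h4 : ∫⁻ f : MW, ENNReal.ofReal (‖Y f s‖ ^ 2) ∂μ ≤
        liminf (fun n => ∫⁻ f : MW, ENNReal.ofReal (‖Y f (t n)‖ ^ 2) ∂μ) atTop := by
      refine le_trans (le_of_eq (lintegral_congr fun f => ?_)) (lintegral_liminf_le fun n =>
        ((Y_meas (t n)).norm.pow_const 2).ennreal_ofReal)
      have h5 : Tendsto (fun n => ENNReal.ofReal (‖Y f (t n)‖ ^ 2)) atTop
          (𝓝 (ENNReal.ofReal (‖Y f s‖ ^ 2))) :=
        (ENNReal.continuous_ofReal.tendsto _).comp (((hY f).norm).pow 2)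
      exact h5.liminf_eq.symm
    have h6 : Tendsto (fun n : ℕ => ENNReal.ofReal (m * (B + C * (1 / ((n : ℝ) + 1))) ^ 2)) atTop
        (𝓝 (ENNReal.ofReal (m * B ^ 2))) := by
      refine (ENNReal.continuous_ofReal.tendsto _).comp ?_
      have h7 : Tendsto (fun n : ℕ => C * (1 / ((n : ℝ) + 1))) atTop (𝓝 0) := by
        simpa using tendsto_one_div_add_atTop_nhds_zero_nat.const_mul C
      have h8 := ((tendsto_const_nhds (x := B)).add h7).pow 2
      rw [add_zero] at h8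
      exact h8.const_mul m
    rw [← h6.liminf_eq]
    exact h4.trans (liminf_le_liminf (Eventually.of_forall h3))

end

theorem SEC : S_SEC := by
  intro μ hμ hI m ν hν h2 a w
  have h := sec_ind hI h2 a.natAbs (Finsupp.single (a, w) 1) (single_mem _ _ le_rfl 1) 1
    zero_le_one (fun α => by rw [tau_single, one_mul, sb_norm])
  rw [one_pow, mul_one] at h
  refine le_trans (le_of_eq (lintegral_congr fun f => ?_)) h
  rw [Y_single, one_mul]

end

end Pool.Agent.N916.BR
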