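import Pool.Agent.N916.BRSEC

/-!
# Project BR, part F4: fourth moments of the derivatives of a wave
-/

set_option autoImplicit false
open MeasureTheory Filter Topology Complex ProbabilityTheory
open scoped ContDiff

namespace Pool.Agent.N916.BR

open Pool.Agent.N661.BR
open Pool.Agent.W745.RW (lap dx dy TF Dp Dm W Sol Sys)
open Pool.Agent.Y265.RW (sy rr sy_ne sy_norm sy_cont rr_cont)

noncomputable section

/-! ### products of convergent sequences -/

instance ht442 : ENNReal.HolderTriple 4 4 2 where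
  inv_add_inv_eq_inv := by
    have h4 : (4 : ENNReal)⁻¹ = 2⁻¹ * 2⁻¹ := by
      rw [← ENNReal.mul_inv (by simp) (by simp)]
      norm_num
    rw [h4, ← two_mul, ← mul_assoc, ENNReal.mul_inv_cancel (by norm_num) (by norm_num), one_mul]

section lp
variable {S : Type*} [MeasurableSpace S] {μ : Measure S}

theorem tend_mul {p q r : ENNReal} [hpqr : ENNReal.HolderTriple p q r] (hr : 1 ≤ r)
    {X Z : S → ℂ} {Xn Zn : ℕ → S → ℂ} (hX : MemLp X p μ) (hZ : MemLp Z q μ)
    (hXn : ∀ n, MemLp (Xn n) p μ) (hZn : ∀ n, MemLp (Zn n) q μ)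
    (h1 : Tendsto (fun n => eLpNorm (fun x => Xn n x - X x) p μ) atTop (𝓝 0))
    (h2 : Tendsto (fun n => eLpNorm (fun x => Zn n x - Z x) q μ) atTop (𝓝 0)) :
    Tendsto (fun n => eLpNorm (fun x => Xn n x * Zn n x - X x * Z x) r μ) atTop (𝓝 0) := by
  have hb : ∀ n, eLpNorm (fun x => Xn n x * Zn n x - X x * Z x) r μ ≤
      eLpNorm (fun x => Xn n x - X x) p μ * eLpNorm (fun x => Zn n x - Z x) q μ +
      eLpNorm (fun x => Xn n x - X x) p μ * eLpNorm Z q μ +
      eLpNorm X p μ * eLpNorm (fun x => Zn n x - Z x) q μ := by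
    intro n
    have e : (fun x => Xn n x * Zn n x - X x * Z x) =
        ((fun x => Xn n x - X x) • (fun x => Zn n x - Z x) + (fun x => Xn n x - X x) • Z) +
          X • (fun x => Zn n x - Z x) := by
      funext x
      simp only [Pi.add_apply, smul_eq_mul, Pi.mul_apply]
      ring
    have m1 := ((hXn n).sub hX).1
    have m2 := ((hZn n).sub hZ).1
    rw [e]
    refine (eLpNorm_add_le ((m1.smul m2).add (m1.smul hZ.1)) (hX.1.smul m2) hr).trans ?_
    refine add_le_add ((eLpNorm_add_le (m1.smul m2) (m1.smul hZ.1) hr).trans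
      (add_le_add ?_ ?_)) ?_
    · exact eLpNorm_smul_le_mul_eLpNorm m2 m1
    · exact eLpNorm_smul_le_mul_eLpNorm hZ.1 m1
    · exact eLpNorm_smul_le_mul_eLpNorm m2 hX.1
  have hlim : Tendsto (fun n => eLpNorm (fun x => Xn n x - X x) p μ *
      eLpNorm (fun x => Zn n x - Z x) q μ +
      eLpNorm (fun x => Xn n x - X x) p μ * eLpNorm Z q μ +
      eLpNorm X p μ * eLpNorm (fun x => Zn n x - Z x) q μ) atTop (𝓝 0) := by
    have a1 : Tendsto (fun n => eLpNorm (fun x => Xn n x - X x) p μ *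
        eLpNorm (fun x => Zn n x - Z x) q μ) atTop (𝓝 0) := by
      have := ENNReal.Tendsto.mul h1 (Or.inr ENNReal.zero_ne_top) h2
        (Or.inr ENNReal.zero_ne_top)
      simpa using this
    have a2 : Tendsto (fun n => eLpNorm (fun x => Xn n x - X x) p μ * eLpNorm Z q μ) atTop
        (𝓝 0) := by
      have := ENNReal.Tendsto.mul_const (b := eLpNorm Z q μ) h1 (Or.inr hZ.eLpNorm_ne_top)
      simpa using this
    have a3 : Tendsto (fun n => eLpNorm X p μ * eLpNorm (fun x => Zn n x - Z x) q μ) atTop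
        (𝓝 0) := by
      have := ENNReal.Tendsto.const_mul (a := eLpNorm X p μ) h2 (Or.inr hX.eLpNorm_ne_top)
      simpa using this
    have := (a1.add a2).add a3
    simpa using this
  exact tendsto_of_tendsto_of_tendsto_of_le_of_le tendsto_const_nhds hlim
    (fun n => zero_le) hb

theorem tend_int4 {X : Fin 4 → S → ℂ} {Xn : ℕ → Fin 4 → S → ℂ} (hX : ∀ i, MemLp (X i) 4 μ)
    (hXn : ∀ n i, MemLp (Xn n i) 4 μ)
    (h : ∀ i, Tendsto (fun n => eLpNorm (fun x => Xn n i x - X i x) 4 μ) atTop (𝓝 0)) :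
    Tendsto (fun n => ∫ x, Xn n 0 x * Xn n 1 x * (Xn n 2 x * Xn n 3 x) ∂μ) atTop
      (𝓝 (∫ x, X 0 x * X 1 x * (X 2 x * X 3 x) ∂μ)) := by
  have a1 := tend_mul (p := 4) (q := 4) (r := 2) (by norm_num) (hX 0) (hX 1)
    (fun n => hXn n 0) (fun n => hXn n 1) (h 0) (h 1)
  have a2 := tend_mul (p := 4) (q := 4) (r := 2) (by norm_num) (hX 2) (hX 3)
    (fun n => hXn n 2) (fun n => hXn n 3) (h 2) (h 3)
  have m : ∀ (f g : S → ℂ), MemLp f 4 μ → MemLp g 4 μ → MemLp (fun x => f x * g x) 2 μ :=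
    fun f g hf hg => hg.mul' (r := 2) hf
  have m' : ∀ (f g : S → ℂ), MemLp f 2 μ → MemLp g 2 μ → MemLp (fun x => f x * g x) 1 μ :=
    fun f g hf hg => hg.mul' (r := 1) hf
  have a3 := tend_mul (p := 2) (q := 2) (r := 1) le_rfl (m _ _ (hX 0) (hX 1))
    (m _ _ (hX 2) (hX 3)) (fun n => m _ _ (hXn n 0) (hXn n 1))
    (fun n => m _ _ (hXn n 2) (hXn n 3)) a1 a2
  refine tendsto_integral_of_L1' _ ?_ (Eventually.of_forall fun n => ?_) a3
  · exact (m' _ _ (m _ _ (hX 0) (hX 1)) (m _ _ (hX 2) (hX 3))).1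
  · exact (memLp_one_iff_integrable.1 (m' _ _ (m _ _ (hXn n 0) (hXn n 1))
      (m _ _ (hXn n 2) (hXn n 3))))

end lp

/-! ### the bilinear form of symbols -/

def Bf (ν : Measure ℝ) (s t : Cb) : ℂ :=
  (1 / 2 : ℂ) * ∫ α, (tau α s * tau (α + Real.pi) t + tau (α + Real.pi) s * tau α t) ∂ν

def G4 (ν : Measure ℝ) (m : ℝ) (a b c d : Cb) : ℂ :=
  (m : ℂ) ^ 2 * (Bf ν a b * Bf ν c d + Bf ν a c * Bf ν b d + Bf ν a d * Bf ν b c)

theorem Bf_symm (ν : Measure ℝ) (s t : Cb) : Bf ν s t = Bf ν t s := by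
  unfold Bf
  congr 1
  refine integral_congr_ae (Eventually.of_forall fun α => ?_)
  simp only
  ring

theorem G4_cyc (ν : Measure ℝ) (m : ℝ) (a b c d : Cb) : G4 ν m a b c d = G4 ν m b c d a := by
  unfold G4
  rw [Bf_symm ν b a, Bf_symm ν c a, Bf_symm ν d a]
  ring

section bf
variable (ν : Measure ℝ) [IsProbabilityMeasure ν]

theorem bd_int (g : ℝ → ℂ) (hg : Continuous g) (B : ℝ) (hB : ∀ α, ‖g α‖ ≤ B) : Integrable g ν :=
  (integrable_const B).mono' hg.aestronglyMeasurable (Eventually.of_forall hB)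

theorem tau_pi_cont (s : Cb) : Continuous (fun α => tau (α + Real.pi) s) :=
  (tau_cont s).comp (continuous_id.add continuous_const)

theorem Bf_int (s t : Cb) : Integrable (fun α => tau α s * tau (α + Real.pi) t +
    tau (α + Real.pi) s * tau α t) ν := by
  obtain ⟨B, hB, h1⟩ := tau_bd s
  obtain ⟨C, hC, h2⟩ := tau_bd t
  refine bd_int ν _ (((tau_cont s).mul (tau_pi_cont t)).add ((tau_pi_cont s).mul (tau_cont t)))
    (B * C + B * C) fun α => ?_
  refine (norm_add_le _ _).trans (add_le_add ?_ ?_)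
  · rw [norm_mul]; exact mul_le_mul (h1 _) (h2 _) (norm_nonneg _) hB
  · rw [norm_mul]; exact mul_le_mul (h1 _) (h2 _) (norm_nonneg _) hB

theorem Bf_add (s s' t : Cb) : Bf ν (s + s') t = Bf ν s t + Bf ν s' t := by
  unfold Bf
  rw [← mul_add, ← integral_add (Bf_int ν s t) (Bf_int ν s' t)]
  congr 1
  refine integral_congr_ae (Eventually.of_forall fun α => ?_)
  simp only [map_add]
  ring

theorem Bf_smul (c : ℂ) (s t : Cb) : Bf ν (c • s) t = c * Bf ν s t := by
  unfold Bf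
  rw [mul_left_comm, ← MeasureTheory.integral_const_mul c]
  congr 1
  refine integral_congr_ae (Eventually.of_forall fun α => ?_)
  simp only [map_smul, smul_eq_mul]
  ring

theorem Bf_bd (s t : Cb) (B C : ℝ) (hB : 0 ≤ B) (h1 : ∀ α, ‖tau α s‖ ≤ B)
    (h2 : ∀ α, ‖tau α t‖ ≤ C) : ‖Bf ν s t‖ ≤ B * C := by
  unfold Bf
  rw [norm_mul]
  have h3 : ‖∫ α, (tau α s * tau (α + Real.pi) t + tau (α + Real.pi) s * tau α t) ∂ν‖ ≤
      (2 * (B * C)) * ν.real Set.univ := by
    refine norm_integral_le_of_norm_le_const (Eventually.of_forall fun α => ?_)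
    refine (norm_add_le _ _).trans ?_
    rw [two_mul, norm_mul, norm_mul]
    exact add_le_add (mul_le_mul (h1 _) (h2 _) (norm_nonneg _) hB)
      (mul_le_mul (h1 _) (h2 _) (norm_nonneg _) hB)
  rw [probReal_univ, mul_one] at h3
  have h4 : ‖(1 / 2 : ℂ)‖ = 1 / 2 := by norm_num
  rw [h4]
  linarith

theorem Bf_lim {s t : Cb} {sn tn : ℕ → Cb} {C : ℝ} (hC : 0 ≤ C)
    (h1 : ∀ (n : ℕ) (α : ℝ), ‖tau α (sn n) - tau α s‖ ≤ C * (1 / ((n : ℝ) + 1)))
    {C' : ℝ} (hC' : 0 ≤ C')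
    (h2 : ∀ (n : ℕ) (α : ℝ), ‖tau α (tn n) - tau α t‖ ≤ C' * (1 / ((n : ℝ) + 1))) :
    Tendsto (fun n => Bf ν (sn n) (tn n)) atTop (𝓝 (Bf ν s t)) := by
  have key : ∀ (s : Cb) (sn : ℕ → Cb) (C : ℝ), 0 ≤ C →
      (∀ (n : ℕ) (α : ℝ), ‖tau α (sn n) - tau α s‖ ≤ C * (1 / ((n : ℝ) + 1))) →
      (∀ α, Tendsto (fun n => tau α (sn n)) atTop (𝓝 (tau α s))) ∧
      ∃ B : ℝ, 0 ≤ B ∧ ∀ n α, ‖tau α (sn n)‖ ≤ B := by
    intro s sn C hC h
    have h0 : Tendsto (fun n : ℕ => C * (1 / ((n : ℝ) + 1))) atTop (𝓝 0) := by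
      simpa using tendsto_one_div_add_atTop_nhds_zero_nat.const_mul C
    refine ⟨fun α => tendsto_iff_norm_sub_tendsto_zero.2
      (squeeze_zero (fun _ => norm_nonneg _) (fun n => h n α) h0), ?_⟩
    obtain ⟨B, hB, h3⟩ := tau_bd s
    refine ⟨B + C, by positivity, fun n α => ?_⟩
    have h4 : (1 : ℝ) / ((n : ℝ) + 1) ≤ 1 := by
      rw [div_le_one (by positivity)]
      have : (0:ℝ) ≤ n := Nat.cast_nonneg n
      linarith
    calc ‖tau α (sn n)‖ = ‖tau α s + (tau α (sn n) - tau α s)‖ := by rw [add_sub_cancel]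
      _ ≤ ‖tau α s‖ + ‖tau α (sn n) - tau α s‖ := norm_add_le _ _
      _ ≤ B + C := add_le_add (h3 α) ((h n α).trans (by nlinarith))
  obtain ⟨p1, B1, q1, r1⟩ := key s sn C hC h1
  obtain ⟨p2, B2, q2, r2⟩ := key t tn C' hC' h2
  unfold Bf
  refine Tendsto.const_mul _ ?_
  refine tendsto_integral_of_dominated_convergence (fun _ => B1 * B2 + B1 * B2)
    (fun n => (Bf_int ν (sn n) (tn n)).1) (integrable_const _)
    (fun n => Eventually.of_forall fun α => ?_) (Eventually.of_forall fun α => ?_)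
  · refine (norm_add_le _ _).trans (add_le_add ?_ ?_)
    · rw [norm_mul]; exact mul_le_mul (r1 _ _) (r2 _ _) (norm_nonneg _) q1
    · rw [norm_mul]; exact mul_le_mul (r1 _ _) (r2 _ _) (norm_nonneg _) q1
  · exact ((p1 _).mul (p2 _)).add ((p1 _).mul (p2 _))

theorem G4_add (m : ℝ) (a a' b c d : Cb) :
    G4 ν m (a + a') b c d = G4 ν m a b c d + G4 ν m a' b c d := by
  unfold G4
  rw [Bf_add, Bf_add, Bf_add]
  ring

theorem G4_smul (m : ℝ) (z : ℂ) (a b c d : Cb) :
    G4 ν m (z • a) b c d = z * G4 ν m a b c d := by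
  unfold G4
  rw [Bf_smul, Bf_smul, Bf_smul]
  ring

end bf

/-! ### conjugation -/

def cj : Cb →ₗ[ℝ] Cb :=
  Finsupp.lsum ℝ (fun p : ℤ × ℂ => (Finsupp.lsingle (-p.1, p.2) : ℂ →ₗ[ℝ] Cb) ∘ₗ
    (LinearMap.mulLeft ℝ ((-1 : ℂ) ^ p.1.natAbs)) ∘ₗ (Complex.conjAe.toLinearMap))

theorem cj_single (p : ℤ × ℂ) (c : ℂ) : cj (Finsupp.single p c) =
    Finsupp.single (-p.1, p.2) ((-1 : ℂ) ^ p.1.natAbs * (starRingEnd ℂ) c) := by
  unfold cj
  simp

theorem Y_cj (f : MW) (s : Cb) : Y f (cj s) = (starRingEnd ℂ) (Y f s) := by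
  induction s using Finsupp.induction_linear with
  | zero => simp
  | add s t hs ht => rw [map_add, map_add, hs, ht, map_add, map_add]
  | single p c =>
    rw [cj_single, Y_single, Y_single, map_mul, conj_W]
    simp only
    ring

theorem conj_sy (α : ℝ) : (starRingEnd ℂ) (sy α) = (sy α)⁻¹ := by
  rw [Complex.inv_def, Complex.normSq_eq_norm_sq, sy_norm]
  simp

theorem neg_one_pow_natAbs (b : ℤ) : ((-1 : ℂ)) ^ b = (-1 : ℂ) ^ b.natAbs := by
  obtain ⟨k, rfl | rfl⟩ := Int.eq_nat_or_neg b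
  · simp
  · rw [zpow_neg, zpow_natCast, Int.natAbs_neg, Int.natAbs_natCast]
    rcases neg_one_pow_eq_or ℂ k with h | h <;> rw [h] <;> norm_num

theorem tau_cj (α : ℝ) (s : Cb) :
    tau α (cj s) = (starRingEnd ℂ) (tau (α + Real.pi) s) := by
  induction s using Finsupp.induction_linear with
  | zero => simp
  | add s t hs ht => rw [map_add, map_add, hs, ht, map_add, map_add]
  | single p c =>
    rw [cj_single, tau_single, tau_single, map_mul]
    unfold sb
    simp only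
    rw [rr_pi, sy_pi, map_mul, conj_exp, map_zpow₀, map_neg, conj_sy, neg_neg]
    have h : (-(sy α)⁻¹) ^ p.1 = (-1 : ℂ) ^ p.1.natAbs * sy α ^ (-p.1) := by
      rw [← neg_one_pow_natAbs, zpow_neg, ← inv_zpow, ← mul_zpow]
      ring_nf
    rw [h]
    ring

theorem cj_mem (K : ℕ) (s : Cb) (hs : s ∈ PK K) : cj s ∈ PK K := by
  rw [PK_eq] at hs
  induction hs using Submodule.span_induction with
  | mem x hx =>
    obtain ⟨p, hp, rfl⟩ := hx
    simp only [Set.mem_ofPred_eq] at hp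
    rw [cj_single]
    exact single_mem K _ (by simpa using hp) _
  | zero => rw [map_zero]; exact (PK K).zero_mem
  | add x y _ _ hx hy => rw [map_add]; exact (PK K).add_mem hx hy
  | smul c x hx' hx =>
    have e : cj (c • x) = (starRingEnd ℂ) c • cj x := by
      clear hx hx'
      induction x using Finsupp.induction_linear with
      | zero => simp
      | add s t hs ht => rw [smul_add, map_add, map_add, hs, ht, smul_add]
      | single p c' =>
        rw [Finsupp.smul_single, cj_single, cj_single, Finsupp.smul_single, smul_eq_mul,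
          smul_eq_mul, map_mul]
        congr 1
        ring
    rw [e]
    exact (PK K).smul_mem _ hx

/-! ### four-linear forms -/

theorem multi (K : ℕ) (H : Cb → Cb → Cb → Cb → ℂ)
    (hadd : ∀ a ∈ PK K, ∀ a' ∈ PK K, ∀ b ∈ PK K, ∀ c ∈ PK K, ∀ d ∈ PK K,
      H (a + a') b c d = H a b c d + H a' b c d)
    (hsmul : ∀ z : ℂ, ∀ a ∈ PK K, ∀ b ∈ PK K, ∀ c ∈ PK K, ∀ d ∈ PK K,
      H (z • a) b c d = z * H a b c d)
    (hcyc : ∀ a b c d, H a b c d = H b c d a)
    (hs : ∀ p q r t : ℤ × ℂ, p.1.natAbs ≤ K → q.1.natAbs ≤ K → r.1.natAbs ≤ K →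
      t.1.natAbs ≤ K → H (Finsupp.single p 1) (Finsupp.single q 1) (Finsupp.single r 1)
        (Finsupp.single t 1) = 0) :
    ∀ a ∈ PK K, ∀ b ∈ PK K, ∀ c ∈ PK K, ∀ d ∈ PK K, H a b c d = 0 := by
  have step : ∀ b ∈ PK K, ∀ c ∈ PK K, ∀ d ∈ PK K,
      (∀ p : ℤ × ℂ, p.1.natAbs ≤ K → H (Finsupp.single p 1) b c d = 0) →
      ∀ a ∈ PK K, H a b c d = 0 := by
    intro b hb c hc d hd h a ha
    rw [PK_eq] at ha
    induction ha using Submodule.span_induction with
    | mem x hx =>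
      obtain ⟨p, hp, rfl⟩ := hx
      exact h p hp
    | zero =>
      have := hsmul 0 0 (PK K).zero_mem b hb c hc d hd
      rw [zero_smul, zero_mul] at this
      exact this
    | add x y hx' hy' hx hy =>
      rw [← PK_eq] at hx' hy'
      rw [hadd x hx' y hy' b hb c hc d hd, hx, hy, add_zero]
    | smul z x hx' hx =>
      rw [← PK_eq] at hx'
      rw [hsmul z x hx' b hb c hc d hd, hx, mul_zero]
  have sm : ∀ p : ℤ × ℂ, p.1.natAbs ≤ K → (Finsupp.single p 1 : Cb) ∈ PK K :=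
    fun p hp => single_mem K p hp 1
  have one : ∀ q r t : ℤ × ℂ, q.1.natAbs ≤ K → r.1.natAbs ≤ K → t.1.natAbs ≤ K →
      ∀ a ∈ PK K, H a (Finsupp.single q 1) (Finsupp.single r 1) (Finsupp.single t 1) = 0 :=
    fun q r t hq hr ht => step _ (sm q hq) _ (sm r hr) _ (sm t ht) fun p hp => hs p q r t hp hq hr ht
  have two : ∀ r t : ℤ × ℂ, r.1.natAbs ≤ K → t.1.natAbs ≤ K → ∀ a ∈ PK K, ∀ b ∈ PK K,
      H a b (Finsupp.single r 1) (Finsupp.single t 1) = 0 := by
    intro r t hr ht a ha b hb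
    rw [hcyc]
    refine step _ (sm r hr) _ (sm t ht) _ ha (fun q hq => ?_) b hb
    rw [← hcyc]
    exact one q r t hq hr ht a ha
  have three : ∀ t : ℤ × ℂ, t.1.natAbs ≤ K → ∀ a ∈ PK K, ∀ b ∈ PK K, ∀ c ∈ PK K,
      H a b c (Finsupp.single t 1) = 0 := by
    intro t ht a ha b hb c hc
    rw [hcyc, hcyc]
    refine step _ (sm t ht) _ ha _ hb (fun r hr => ?_) c hc
    rw [← hcyc, ← hcyc]
    exact two r t hr ht a ha b hb
  intro a ha b hb c hc d hd
  rw [← hcyc]
  refine step _ ha _ hb _ hc (fun t ht => ?_) d hd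
  rw [hcyc]
  exact three t ht a ha b hb c hc

/-! ### the induction -/

def P4 (μ : Measure MW) (ν : Measure ℝ) (m : ℝ) (K : ℕ) : Prop :=
  (∀ s ∈ PK K, MemLp (fun f : MW => Y f s) 4 μ) ∧
  ∀ a ∈ PK K, ∀ b ∈ PK K, ∀ c ∈ PK K, ∀ d ∈ PK K,
    ∫ f : MW, Y f a * Y f b * (Y f c * Y f d) ∂μ = G4 ν m a b c d

section ind
variable {μ : Measure MW} [IsProbabilityMeasure μ] {m : ℝ} {ν : Measure ℝ} [IsProbabilityMeasure ν]

omit [IsProbabilityMeasure μ] in
theorem int4 {F : Fin 4 → MW → ℂ} (h : ∀ i, MemLp (F i) 4 μ) :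
    Integrable (fun f => F 0 f * F 1 f * (F 2 f * F 3 f)) μ := by
  have m1 : MemLp (fun x => F 0 x * F 1 x) 2 μ := (h 1).mul' (r := 2) (h 0)
  have m2 : MemLp (fun x => F 2 x * F 3 x) 2 μ := (h 3).mul' (r := 2) (h 2)
  exact memLp_one_iff_integrable.1 (m2.mul' (r := 1) m1)

theorem Bf_sz (w w' : ℂ) : Bf ν (Finsupp.single (0, w) 1) (Finsupp.single (0, w') 1) =
    (cov ν (w - w') : ℂ) := by
  rw [cov_rr, ← integral_complex_ofReal]
  unfold Bf
  rw [← integral_const_mul]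
  refine integral_congr_ae (Eventually.of_forall fun α => ?_)
  simp only
  rw [tau_single, tau_single, tau_single, tau_single, sb_zero, sb_zero, sb_zero, sb_zero, rr_pi,
    rr_pi, one_mul, one_mul, one_mul, one_mul, ← Complex.exp_add, ← Complex.exp_add,
    Complex.ofReal_cos, Complex.cos]
  push_cast
  have e1 : (rr w α : ℂ) * I + -(rr w' α : ℂ) * I = ((rr w α : ℂ) - (rr w' α : ℂ)) * I := by ring
  have e2 : -(rr w α : ℂ) * I + (rr w' α : ℂ) * I = -((rr w α : ℂ) - (rr w' α : ℂ)) * I := by ring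
  rw [e1, e2]
  ring

theorem base4 (hF : Four μ m ν) : P4 μ ν m 0 := by
  have hL : ∀ s ∈ PK 0, MemLp (fun f : MW => Y f s) 4 μ := by
    intro s hs
    have e : (fun f : MW => Y f s) = fun f => ∑ p ∈ s.support, s p * (f p.2 : ℂ) := by
      funext f
      exact Y_zero f s hs
    rw [e]
    exact memLp_finset_sum _ fun p _ => ((hF.memLp p.2).ofReal (K := ℂ)).const_mul (s p)
  refine ⟨hL, ?_⟩
  intro a ha b hb c hc d hd
  have key := multi 0 (fun a b c d => ∫ f : MW, Y f a * Y f b * (Y f c * Y f d) ∂μ -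
    G4 ν m a b c d) ?_ ?_ ?_ ?_ a ha b hb c hc d hd
  · exact sub_eq_zero.1 key
  · intro a ha a' ha' b hb c hc d hd
    have ei : ∫ f : MW, Y f (a + a') * Y f b * (Y f c * Y f d) ∂μ =
        ∫ f : MW, Y f a * Y f b * (Y f c * Y f d) ∂μ +
          ∫ f : MW, Y f a' * Y f b * (Y f c * Y f d) ∂μ := by
      have i1 := int4 (F := ![fun f => Y f a, fun f => Y f b, fun f => Y f c, fun f => Y f d])
        (μ := μ) (by intro i; fin_cases i <;> simp <;> apply hL <;> assumption)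
      have i2 := int4 (F := ![fun f => Y f a', fun f => Y f b, fun f => Y f c, fun f => Y f d])
        (μ := μ) (by intro i; fin_cases i <;> simp <;> apply hL <;> assumption)
      refine Eq.trans ?_ (integral_add i1 i2)
      refine integral_congr_ae (Eventually.of_forall fun f => ?_)
      simp [map_add]
      ring
    rw [G4_add, ei]
    ring
  · intro z a ha b hb c hc d hd
    rw [G4_smul, mul_sub, ← integral_const_mul]
    congr 1
    refine integral_congr_ae (Eventually.of_forall fun f => ?_)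
    simp only [map_smul, smul_eq_mul]
    ring
  · intro a b c d
    rw [G4_cyc]
    congr 1
    refine integral_congr_ae (Eventually.of_forall fun f => ?_)
    simp only
    ring
  · intro p q r t hp hq hr ht
    obtain ⟨p1, p2⟩ := p
    obtain ⟨q1, q2⟩ := q
    obtain ⟨r1, r2⟩ := r
    obtain ⟨t1, t2⟩ := t
    have hp' : p1 = 0 := by simpa using hp
    have hq' : q1 = 0 := by simpa using hq
    have hr' : r1 = 0 := by simpa using hr
    have ht' : t1 = 0 := by simpa using ht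
    subst hp' hq' hr' ht'
    have h4 := hF.four ![p2, q2, r2, t2]
    simp only [Fin.prod_univ_four, Matrix.cons_val] at h4
    have e : ∫ f : MW, Y f (Finsupp.single (0, p2) 1) * Y f (Finsupp.single (0, q2) 1) *
        (Y f (Finsupp.single (0, r2) 1) * Y f (Finsupp.single (0, t2) 1)) ∂μ =
        ((∫ f : MW, f p2 * f q2 * f r2 * f t2 ∂μ : ℝ) : ℂ) := by
      rw [← integral_complex_ofReal]
      refine integral_congr_ae (Eventually.of_forall fun f => ?_)
      simp only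
      rw [Y_single, Y_single, Y_single, Y_single, one_mul, one_mul, one_mul, one_mul, W_zero,
        W_zero, W_zero, W_zero]
      push_cast
      ring
    rw [e, h4, sub_eq_zero]
    unfold G4 Pool.Agent.N661.BR.gauss
    rw [Bf_sz, Bf_sz, Bf_sz, Bf_sz, Bf_sz, Bf_sz]
    simp only [Matrix.cons_val]
    push_cast
    ring

omit [IsProbabilityMeasure μ] in
theorem L4bd {K : ℕ} (hP : P4 μ ν m K) (s : Cb) (hs : s ∈ PK K) (B : ℝ) (hB : 0 ≤ B)
    (hb : ∀ α, ‖tau α s‖ ≤ B) :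
    eLpNorm (fun f : MW => Y f s) 4 μ ≤ ENNReal.ofReal (3 * m ^ 2 * B ^ 4) ^ (1 / 4 : ℝ) := by
  have hc := cj_mem K s hs
  have hbc : ∀ α, ‖tau α (cj s)‖ ≤ B := fun α => by
    rw [tau_cj, Complex.norm_conj]
    exact hb _
  have h1 := hP.2 s hs s hs (cj s) hc (cj s) hc
  have e1 : (fun f : MW => Y f s * Y f s * (Y f (cj s) * Y f (cj s))) =
      fun f => ((‖Y f s‖ ^ 4 : ℝ) : ℂ) := by
    funext f
    rw [Y_cj]
    have : Y f s * Y f s * ((starRingEnd ℂ) (Y f s) * (starRingEnd ℂ) (Y f s)) =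
        (Y f s * (starRingEnd ℂ) (Y f s)) ^ 2 := by ring
    rw [this, Complex.mul_conj, Complex.normSq_eq_norm_sq]
    push_cast
    ring
  rw [e1, integral_complex_ofReal] at h1
  have h2 : ∫ f : MW, ‖Y f s‖ ^ 4 ∂μ ≤ 3 * m ^ 2 * B ^ 4 := by
    have h3 : ‖((∫ f : MW, ‖Y f s‖ ^ 4 ∂μ : ℝ) : ℂ)‖ ≤ 3 * m ^ 2 * B ^ 4 := by
      rw [h1]
      unfold G4
      have b1 := Bf_bd ν s s B B hB hb hb
      have b2 := Bf_bd ν (cj s) (cj s) B B hB hbc hbc
      have b3 := Bf_bd ν s (cj s) B B hB hb hbc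
      have n0 := norm_nonneg (Bf ν s s)
      have n1 := norm_nonneg (Bf ν s (cj s))
      have n2 := norm_nonneg (Bf ν (cj s) (cj s))
      rw [norm_mul, norm_pow, Complex.norm_real, Real.norm_eq_abs, sq_abs]
      have h4 : ‖Bf ν s s * Bf ν (cj s) (cj s) + Bf ν s (cj s) * Bf ν s (cj s) +
          Bf ν s (cj s) * Bf ν s (cj s)‖ ≤ 3 * B ^ 4 := by
        refine (norm_add₃_le).trans ?_
        rw [norm_mul, norm_mul]
        have hBB : (0:ℝ) ≤ B * B := mul_nonneg hB hB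
        have c1 := mul_le_mul b1 b2 n2 hBB
        have c2 := mul_le_mul b3 b3 n1 hBB
        nlinarith
      calc m ^ 2 * _ ≤ m ^ 2 * (3 * B ^ 4) := mul_le_mul_of_nonneg_left h4 (sq_nonneg m)
        _ = 3 * m ^ 2 * B ^ 4 := by ring
    rw [Complex.norm_real] at h3
    exact (le_abs_self _).trans h3
  have hI : Integrable (fun f : MW => ‖Y f s‖ ^ 4) μ := by
    have := (hP.1 s hs).integrable_norm_pow (p := 4) (by norm_num)
    exact_mod_cast this
  rw [eLpNorm_eq_lintegral_rpow_enorm_toReal (by norm_num) (by norm_num)]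
  have e4 : (4 : ENNReal).toReal = 4 := by simp
  rw [e4]
  refine ENNReal.rpow_le_rpow ?_ (by norm_num)
  refine le_trans (le_of_eq ?_) (ENNReal.ofReal_le_ofReal h2)
  rw [ofReal_integral_eq_lintegral_ofReal hI (Eventually.of_forall fun f => by positivity)]
  refine lintegral_congr fun f => ?_
  rw [← ofReal_norm, ENNReal.ofReal_rpow_of_nonneg (norm_nonneg _) (by norm_num)]
  congr 1
  exact_mod_cast Real.rpow_natCast ‖Y f s‖ 4

theorem step4 {K : ℕ} (hP : P4 μ ν m K) : P4 μ ν m (K + 1) := by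
  have key : ∀ s ∈ PK (K + 1), MemLp (fun f : MW => Y f s) 4 μ ∧
      ∃ t : ℕ → Cb, (∀ n, t n ∈ PK K) ∧
      Tendsto (fun n => eLpNorm (fun f : MW => Y f (t n) - Y f s) 4 μ) atTop (𝓝 0) ∧
      ∃ C : ℝ, 0 ≤ C ∧ ∀ (n : ℕ) (α : ℝ), ‖tau α (t n) - tau α s‖ ≤ C * (1 / ((n : ℝ) + 1)) := by
    intro s hs
    obtain ⟨t, ht, hY, C, hC, htau⟩ := approx K s hs
    have hd : ∀ n k : ℕ, n ≤ k → eLpNorm (fun f : MW => Y f (t n) - Y f (t k)) 4 μ ≤
        ENNReal.ofReal (3 * m ^ 2 * (2 * (C * (1 / ((n : ℝ) + 1)))) ^ 4) ^ (1 / 4 : ℝ) := by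
      intro n k hnk
      have h := L4bd hP (t n - t k) ((PK K).sub_mem (ht n) (ht k))
        (2 * (C * (1 / ((n : ℝ) + 1)))) (by positivity) ?_
      · simpa only [map_sub] using h
      · intro α
        rw [map_sub]
        have e : tau α (t n) - tau α (t k) = (tau α (t n) - tau α s) - (tau α (t k) - tau α s) := by
          ring
        rw [e, two_mul]
        refine (norm_sub_le _ _).trans (add_le_add (htau n α) ((htau k α).trans ?_))
        have h1 : (n : ℝ) ≤ k := Nat.cast_le.2 hnk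
        gcongr
    have hfat : ∀ n, eLpNorm (fun f : MW => Y f (t n) - Y f s) 4 μ ≤
        ENNReal.ofReal (3 * m ^ 2 * (2 * (C * (1 / ((n : ℝ) + 1)))) ^ 4) ^ (1 / 4 : ℝ) := by
      intro n
      have h := Lp.eLpNorm_lim_le_liminf_eLpNorm (μ := μ) (p := 4)
        (f := fun (k : ℕ) (f : MW) => Y f (t n) - Y f (t k))
        (fun k => ((Y_meas (t n)).sub (Y_meas (t k))).aestronglyMeasurable)
        (fun f : MW => Y f (t n) - Y f s)
        (Eventually.of_forall fun f => tendsto_const_nhds.sub (hY f))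
      refine h.trans ?_
      refine (liminf_le_liminf (v := fun _ => ENNReal.ofReal (3 * m ^ 2 *
        (2 * (C * (1 / ((n : ℝ) + 1)))) ^ 4) ^ (1 / 4 : ℝ)) ?_).trans (liminf_const _).le
      filter_upwards [eventually_ge_atTop n] with k hk
      exact hd n k hk
    have hlim : Tendsto (fun n : ℕ => ENNReal.ofReal (3 * m ^ 2 *
        (2 * (C * (1 / ((n : ℝ) + 1)))) ^ 4) ^ (1 / 4 : ℝ)) atTop (𝓝 0) := by
      have h0 : Tendsto (fun n : ℕ => 3 * m ^ 2 * (2 * (C * (1 / ((n : ℝ) + 1)))) ^ 4) atTop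
          (𝓝 (3 * m ^ 2 * (2 * (C * 0)) ^ 4)) :=
        (((tendsto_one_div_add_atTop_nhds_zero_nat.const_mul C).const_mul 2).pow 4).const_mul _
      have h1 : (3 * m ^ 2 * (2 * (C * 0)) ^ 4 : ℝ) = 0 := by ring
      rw [h1] at h0
      have h2 := (ENNReal.continuous_rpow_const (y := (1 / 4 : ℝ))).tendsto (0 : ENNReal)
      rw [ENNReal.zero_rpow_of_pos (by norm_num)] at h2
      have h3 := (ENNReal.continuous_ofReal.tendsto (0:ℝ)).comp h0
      rw [ENNReal.ofReal_zero] at h3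
      exact h2.comp h3
    have hten : Tendsto (fun n => eLpNorm (fun f : MW => Y f (t n) - Y f s) 4 μ) atTop (𝓝 0) :=
      tendsto_of_tendsto_of_tendsto_of_le_of_le tendsto_const_nhds hlim (fun n => zero_le) hfat
    refine ⟨?_, t, ht, hten, C, hC, htau⟩
    have hm : MemLp (fun f : MW => Y f (t 0) - Y f s) 4 μ := by
      refine ⟨((Y_meas (t 0)).sub (Y_meas s)).aestronglyMeasurable, (hfat 0).trans_lt ?_⟩
      exact ENNReal.rpow_lt_top_of_nonneg (by norm_num) ENNReal.ofReal_ne_top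
    have h3 := (hP.1 (t 0) (ht 0)).sub hm
    refine h3.congr_norm (Y_meas s).aestronglyMeasurable (Eventually.of_forall fun f => ?_)
    simp
  refine ⟨fun s hs => (key s hs).1, ?_⟩
  intro a ha b hb c hc d hd
  obtain ⟨ma, ta, ta1, ta2, Ca, Ca0, ta3⟩ := key a ha
  obtain ⟨mb, tb, tb1, tb2, Cb', Cb0, tb3⟩ := key b hb
  obtain ⟨mc, tc, tc1, tc2, Cc, Cc0, tc3⟩ := key c hc
  obtain ⟨md, td, td1, td2, Cd, Cd0, td3⟩ := key d hd
  have hl := tend_int4 (μ := μ) (X := ![fun f => Y f a, fun f => Y f b, fun f => Y f c,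
      fun f => Y f d])
    (Xn := fun n => ![fun f => Y f (ta n), fun f => Y f (tb n), fun f => Y f (tc n),
      fun f => Y f (td n)])
    (by intro i; fin_cases i <;> simp <;> assumption)
    (by
      intro n i
      fin_cases i
      · exact hP.1 _ (ta1 n)
      · exact hP.1 _ (tb1 n)
      · exact hP.1 _ (tc1 n)
      · exact hP.1 _ (td1 n))
    (by
      intro i
      fin_cases i
      · exact ta2
      · exact tb2
      · exact tc2
      · exact td2)
  have hr : Tendsto (fun n => G4 ν m (ta n) (tb n) (tc n) (td n)) atTop (𝓝 (G4 ν m a b c d)) := by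
    unfold G4
    refine Tendsto.const_mul _ ?_
    exact (((Bf_lim ν Ca0 ta3 Cb0 tb3).mul (Bf_lim ν Cc0 tc3 Cd0 td3)).add
      ((Bf_lim ν Ca0 ta3 Cc0 tc3).mul (Bf_lim ν Cb0 tb3 Cd0 td3))).add
      ((Bf_lim ν Ca0 ta3 Cd0 td3).mul (Bf_lim ν Cb0 tb3 Cc0 tc3))
  refine tendsto_nhds_unique hl (hr.congr fun n => ?_)
  exact (hP.2 _ (ta1 n) _ (tb1 n) _ (tc1 n) _ (td1 n)).symm

theorem all4 (hF : Four μ m ν) (K : ℕ) : P4 μ ν m K := by
  induction K with
  | zero => exact base4 hF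
  | succ K ih => exact step4 ih

omit [IsProbabilityMeasure ν] in
theorem Bf_BB (a b : ℤ) : Bf ν (Finsupp.single (a, 0) 1) (Finsupp.single (b, 0) 1) = BB ν a b := by
  unfold Bf BB cf
  rw [← integral_const_mul, ← integral_const_mul]
  refine integral_congr_ae (Eventually.of_forall fun α => ?_)
  simp only
  have e : ∀ (α : ℝ) (a : ℤ), sb α (a, 0) = sy α ^ a := by
    intro α a
    unfold sb Pool.Agent.Y265.RW.rr
    simp
  have e2 : ∀ a : ℤ, (-sy α) ^ a = (-1 : ℂ) ^ a.natAbs * sy α ^ a := by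
    intro a
    rw [← neg_one_pow_natAbs, ← mul_zpow]
    ring_nf
  rw [tau_single, tau_single, tau_single, tau_single, e, e, e, e, sy_pi, e2, e2,
    zpow_add₀ (sy_ne α)]
  ring

end ind

theorem F4 : S_F4 := by
  intro μ hμ m ν hν hF a
  have hP := all4 hF (∑ i, (a i).natAbs)
  have hm : ∀ i, (Finsupp.single (a i, (0 : ℂ)) 1 : Cb) ∈ PK (∑ i, (a i).natAbs) := fun i =>
    single_mem _ _ (Finset.single_le_sum (f := fun i => (a i).natAbs) (fun _ _ => Nat.zero_le _)
      (Finset.mem_univ i)) 1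
  have e : ∀ f : MW, ∏ i, W 1 f (a i) 0 = Y f (Finsupp.single (a 0, 0) 1) *
      Y f (Finsupp.single (a 1, 0) 1) * (Y f (Finsupp.single (a 2, 0) 1) *
      Y f (Finsupp.single (a 3, 0) 1)) := by
    intro f
    rw [Fin.prod_univ_four, Y_single, Y_single, Y_single, Y_single]
    simp only
    ring
  simp only [e]
  refine ⟨int4 (F := fun i f => Y f (Finsupp.single (a i, 0) 1)) fun i => hP.1 _ (hm i), ?_⟩
  rw [hP.2 _ (hm 0) _ (hm 1) _ (hm 2) _ (hm 3)]
  unfold G4
  rw [Bf_BB, Bf_BB, Bf_BB, Bf_BB, Bf_BB, Bf_BB]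

end

end Pool.Agent.N916.BR
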