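import Pool.Agent.N795.BV.Stm
import Pool.Agent.V1148.Bor.I

set_option autoImplicit false

open Polynomial

namespace Pool.Agent.N795.BV

namespace H916

theorem prod_aff {ι : Type} [Fintype ι] (z : ι → ℂ) (μ s : ℂ) (hs : s ≠ 0) :
    (∏ k, (X - C (z k))).comp (C s * X + C μ) = C (s ^ Fintype.card ι) * ∏ k, (X - C ((z k - μ) / s)) := by
  rw [Polynomial.prod_comp]
  have h : ∀ k ∈ (Finset.univ : Finset ι), (X - C (z k)).comp (C s * X + C μ) = C s * (X - C ((z k - μ) / s)) := by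
    intro k _
    rw [sub_comp, X_comp, C_comp, mul_sub, ← C_mul, mul_div_cancel₀ _ hs, C_sub]
    ring
  rw [Finset.prod_congr rfl h, Finset.prod_mul_distrib, Finset.prod_const, Finset.card_univ, C_pow]

theorem rel_aff {m : ℕ} {z : Fin (m + 1) → ℂ} {w : Fin m → ℂ} (h : Rel z w) (μ s : ℂ) (hs : s ≠ 0) :
    Rel (fun k => (z k - μ) / s) (fun i => (w i - μ) / s) := by
  unfold Rel at h ⊢
  have h1 := congrArg (fun P : ℂ[X] => derivative (P.comp (C s * X + C μ))) (rfl : (∏ k, (X - C (z k))) = ∏ k, (X - C (z k)))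
  have h2 : derivative ((∏ k, (X - C (z k))).comp (C s * X + C μ)) =
      C (s ^ (m + 1)) * derivative (∏ k, (X - C ((z k - μ) / s))) := by
    rw [prod_aff z μ s hs, Fintype.card_fin, derivative_C_mul]
  have h3 : derivative ((∏ k, (X - C (z k))).comp (C s * X + C μ)) =
      C (s ^ (m + 1)) * (C ((m : ℂ) + 1) * ∏ i, (X - C ((w i - μ) / s))) := by
    rw [derivative_comp, h, mul_comp, C_comp, prod_aff w μ s hs, Fintype.card_fin]
    simp only [derivative_add, derivative_mul, derivative_C, derivative_X, zero_mul, mul_one, zero_add, add_zero]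
    rw [pow_succ s m, C_mul]
    ring
  have h4 : (C (s ^ (m + 1)) : ℂ[X]) ≠ 0 := C_ne_zero.2 (pow_ne_zero _ hs)
  exact mul_left_cancel₀ h4 (h2.symm.trans h3)

open Pool.Agent.V1148.Bor in
theorem fin_of {F : ℂ[X]} {n : ℕ} (h : F.natDegree = n) : ∃ z : Fin n → ℂ, F.roots = Finset.univ.val.map z ∧
    ∀ (p : ℝ) (c : ℂ), pmean p F c = ((1 / (n : ℝ)) * ∑ i, ‖z i - c‖ ^ p) ^ (1 / p) := by
  subst h
  exact pmean_eq

theorem prod_roots {F : ℂ[X]} {n : ℕ} {z : Fin n → ℂ} (h : F.roots = Finset.univ.val.map z) :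
    F = C F.leadingCoeff * ∏ k, (X - C (z k)) := by
  have h1 := (IsAlgClosed.splits F).eq_prod_roots
  rw [h, Multiset.map_map] at h1
  exact h1

/-- the critical points -/
theorem crit {m : ℕ} {F : ℂ[X]} (hF : F.natDegree = m + 1) {Z : Fin (m + 1) → ℂ}
    (hZ : F.roots = Finset.univ.val.map Z) :
    ∃ W : Fin m → ℂ, Rel Z W ∧ ∀ i, W i ∈ (derivative F).roots := by
  have hF0 : F ≠ 0 := by
    rintro rfl
    simp at hF
  have hl : F.leadingCoeff ≠ 0 := leadingCoeff_ne_zero.2 hF0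
  have e1 := prod_roots hZ
  set G : ℂ[X] := ∏ k, (X - C (Z k)) with hG
  have e2 : derivative F = C F.leadingCoeff * derivative G := by
    conv_lhs => rw [e1]
    rw [derivative_C_mul]
  have e3 : (derivative F).roots = (derivative G).roots := by
    rw [e2, roots_C_mul _ hl]
  have hd : (derivative F).natDegree = m := by
    rw [natDegree_derivative, hF]
    rfl
  obtain ⟨W, hW, -⟩ := fin_of hd
  refine ⟨W, ?_, fun i => by rw [hW]; exact Multiset.mem_map_of_mem _ (Finset.mem_univ_val i)⟩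
  have e4 := prod_roots hW
  have e5 : (derivative F).leadingCoeff = F.leadingCoeff * ((m : ℂ) + 1) := by
    rw [leadingCoeff_derivative, hF]
    push_cast
    ring
  unfold Rel
  rw [← hG]
  have h4 : (C F.leadingCoeff : ℂ[X]) ≠ 0 := C_ne_zero.2 hl
  refine mul_left_cancel₀ h4 ?_
  rw [← e2, e4, e5, C_mul]
  ring

theorem var {n : ℕ} (Z : Fin n → ℂ) (μ c : ℂ) (hμ : ∑ k, (Z k - μ) = 0) :
    ∑ k, ‖Z k - μ‖ ^ 2 ≤ ∑ k, ‖Z k - c‖ ^ 2 := by
  have h : ∀ k, ‖Z k - c‖ ^ 2 = ‖Z k - μ‖ ^ 2 + ‖μ - c‖ ^ 2 + 2 * ((Z k - μ) * (starRingEnd ℂ) (μ - c)).re := by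
    intro k
    have h1 : Z k - c = (Z k - μ) + (μ - c) := by ring
    rw [h1, ← Complex.normSq_eq_norm_sq, ← Complex.normSq_eq_norm_sq, ← Complex.normSq_eq_norm_sq,
      Complex.normSq_add]
  have h2 : ∑ k, ‖Z k - c‖ ^ 2 = ∑ k, ‖Z k - μ‖ ^ 2 + n * ‖μ - c‖ ^ 2 := by
    rw [Finset.sum_congr rfl fun k _ => h k, Finset.sum_add_distrib, Finset.sum_add_distrib, ← Finset.mul_sum,
      ← Complex.re_sum, ← Finset.sum_mul, hμ]
    simp
  rw [h2]
  have : 0 ≤ (n : ℝ) * ‖μ - c‖ ^ 2 := by positivity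
  linarith

end H916

open Pool.Agent.V1148.Bor H916 in
theorem nrm (hG : S_GL) : S_NRM := by
  intro m hm F hF p hp hlt
  have hn0 : 0 < F.natDegree := by omega
  have hn2 : 2 ≤ F.natDegree := by omega
  have hp0 : 0 < p := by linarith
  obtain ⟨Z, hZ, hmean⟩ := fin_of hF
  obtain ⟨W, hR, hW⟩ := crit hF hZ
  obtain ⟨c0, hc0⟩ := exists_min hp0 (exists_root hn2)
  obtain ⟨z0, hz0, hh⟩ := hdist_attained (exists_root hn2)
  have hz0' := hz0
  rw [hZ, Multiset.mem_map] at hz0'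
  obtain ⟨k0, -, rfl⟩ := hz0'
  have hstar : ∀ i, pmean p F c0 < ‖W i - Z k0‖ := by
    intro i
    rw [← hc0, norm_sub_rev]
    exact hlt.trans_le (by rw [hh]; exact near_le (hW i))
  have hN : (0 : ℝ) < (m : ℝ) + 1 := by positivity
  have hNc : ((m : ℂ) + 1) ≠ 0 := by
    have : ((m : ℂ) + 1) = (((m : ℝ) + 1 : ℝ) : ℂ) := by push_cast; rfl
    rw [this]
    exact_mod_cast hN.ne'
  set μ : ℂ := (∑ k, Z k) / ((m : ℂ) + 1) with hμ
  have hμ0 : ∑ k, (Z k - μ) = 0 := by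
    rw [Finset.sum_sub_distrib, Finset.sum_const, Finset.card_univ, Fintype.card_fin, nsmul_eq_mul, hμ]
    push_cast
    rw [mul_div_cancel₀ _ hNc]
    ring
  set s : ℝ := √((1 / ((m : ℝ) + 1)) * ∑ k, ‖Z k - μ‖ ^ 2) with hs
  have hA0 : 0 ≤ (1 / ((m : ℝ) + 1)) * ∑ k, ‖Z k - μ‖ ^ 2 := by positivity
  have hs2 : s ^ 2 = (1 / ((m : ℝ) + 1)) * ∑ k, ‖Z k - μ‖ ^ 2 := Real.sq_sqrt hA0
  have hs0 : 0 ≤ s := Real.sqrt_nonneg _
  -- s ≤ pmean
  have hsp : s ≤ pmean p F c0 := by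
    refine le_trans ?_ (pmean_mono hn0 (by norm_num : (0 : ℝ) < 2) hp c0)
    rw [hmean, hs, Real.sqrt_eq_rpow]
    refine Real.rpow_le_rpow hA0 ?_ (by norm_num)
    push_cast
    refine mul_le_mul_of_nonneg_left ?_ (by positivity)
    have h := var Z μ c0 hμ0
    refine h.trans (le_of_eq ?_)
    refine Finset.sum_congr rfl fun k _ => ?_
    rw [← Real.rpow_natCast]
    norm_num
  -- s > 0
  have hspos : 0 < s := by
    rcases hs0.lt_or_eq with h | h
    · exact h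
    · exfalso
      rw [← h] at hs2
      have h1 : ∑ k, ‖Z k - μ‖ ^ 2 = 0 := by
        have h2 : (1 / ((m : ℝ) + 1)) ≠ 0 := by positivity
        have h3 : (1 / ((m : ℝ) + 1)) * ∑ k, ‖Z k - μ‖ ^ 2 = 0 := by rw [← hs2]; norm_num
        rcases mul_eq_zero.1 h3 with h4 | h4
        · exact absurd h4 h2
        · exact h4
      have h2 : ∀ k, ‖(Z k - μ) / (1 : ℂ)‖ ≤ 0 := by
        intro k
        have h3 := (Finset.sum_eq_zero_iff_of_nonneg (fun k _ => by positivity)).1 h1 k (Finset.mem_univ k)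
        rw [div_one]
        exact le_of_eq (pow_eq_zero_iff (two_ne_zero)|>.1 h3)
      have h3 := hG m _ _ 0 (rel_aff hR μ 1 one_ne_zero) h2 ⟨0, hm⟩
      have h4 : W ⟨0, hm⟩ = μ := by
        have := norm_le_zero_iff.1 h3
        rw [div_one] at this
        exact sub_eq_zero.1 this
      have h5 : Z k0 = μ := by
        have := norm_le_zero_iff.1 (h2 k0)
        rw [div_one] at this
        exact sub_eq_zero.1 this
      have h6 := hstar ⟨0, hm⟩
      rw [h4, h5, sub_self, norm_zero] at h6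
      exact absurd h6 (not_lt.2 (pmean_nonneg p F c0))
  have hsc : (s : ℂ) ≠ 0 := by exact_mod_cast hspos.ne'
  have hnorm : ∀ x : ℂ, ‖x / (s : ℂ)‖ = ‖x‖ / s := by
    intro x
    rw [norm_div, Complex.norm_real, Real.norm_of_nonneg hs0]
  have hdiff : ∀ x y : ℂ, (x - μ) / (s : ℂ) - (y - μ) / s = (x - y) / s := by
    intro x y
    rw [← sub_div]
    congr 1
    ring
  refine ⟨fun k => (Z k - μ) / s, fun i => (W i - μ) / s, (c0 - μ) / s, k0, rel_aff hR μ s hsc, ?_, ?_, ?_, ?_⟩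
  · rw [← Finset.sum_div, hμ0, zero_div]
  · have h1 : ∀ k, ‖(Z k - μ) / (s : ℂ)‖ ^ 2 = ‖Z k - μ‖ ^ 2 / s ^ 2 := by
      intro k
      rw [hnorm, div_pow]
    simp only [h1]
    rw [← Finset.sum_div, div_eq_iff (by positivity), hs2]
    field_simp
  · intro i j
    simp only
    rw [hdiff, hdiff, hnorm, hnorm, ← mul_div_assoc]
    refine div_le_div_of_nonneg_right ?_ hs0
    have h1 := norm_le_pmean hn0 hp0 c0 (w := Z j) (by rw [hZ]; exact Multiset.mem_map_of_mem _ (Finset.mem_univ_val j))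
    rw [hF] at h1
    push_cast at h1
    refine h1.trans ?_
    exact mul_le_mul_of_nonneg_left (hstar i).le (by positivity)
  · intro i
    simp only
    rw [hdiff, hnorm, lt_div_iff₀ hspos, one_mul]
    exact hsp.trans_lt (hstar i)

end Pool.Agent.N795.BV
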