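import Pool.Agent.N661.BR.Base

/-!
# Project BR: finite linear combinations of the derivatives of a wave and their symbols
-/

set_option autoImplicit false
open MeasureTheory Filter Topology Complex ProbabilityTheory
open scoped ContDiff

namespace Pool.Agent.N916.BR

open Pool.Agent.N661.BR
open Pool.Agent.W745.RW (lap dx dy TF Dp Dm W Sol Sys)
open Pool.Agent.Y265.RW (sy rr sy_ne sy_norm sy_cont rr_cont)

noncomputable section

/-- formal finite combinations of `W_b (w)` -/
abbrev Cb := (ℤ × ℂ) →₀ ℂ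

/-- symbol of `W_b (w)` -/
def sb (α : ℝ) (p : ℤ × ℂ) : ℂ := sy α ^ p.1 * Complex.exp ((rr p.2 α : ℂ) * I)

/-- the value of a combination -/
def Y (f : MW) : Cb →ₗ[ℂ] ℂ := Finsupp.linearCombination ℂ (fun p : ℤ × ℂ => W 1 f p.1 p.2)

/-- the symbol of a combination -/
def tau (α : ℝ) : Cb →ₗ[ℂ] ℂ := Finsupp.linearCombination ℂ (sb α)

/-- combinations of the derivatives of order at most `K` -/
def PK (K : ℕ) : Submodule ℂ Cb := Finsupp.supported ℂ ℂ {p : ℤ × ℂ | p.1.natAbs ≤ K}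

theorem Y_single (f : MW) (p : ℤ × ℂ) (c : ℂ) : Y f (Finsupp.single p c) = c * W 1 f p.1 p.2 := by
  unfold Y
  rw [Finsupp.linearCombination_single, smul_eq_mul]

theorem tau_single (α : ℝ) (p : ℤ × ℂ) (c : ℂ) : tau α (Finsupp.single p c) = c * sb α p := by
  unfold tau
  rw [Finsupp.linearCombination_single, smul_eq_mul]

theorem Y_meas (s : Cb) : Measurable (fun f : MW => Y f s) := by
  unfold Y
  simp only [Finsupp.linearCombination_apply, Finsupp.sum, smul_eq_mul]
  exact Finset.measurable_fun_sum _ fun p _ => (meas_W p.1 p.2).const_mul _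

theorem sb_norm (α : ℝ) (p : ℤ × ℂ) : ‖sb α p‖ = 1 := by
  unfold sb
  rw [norm_mul, norm_zpow, sy_norm, one_zpow, one_mul, Complex.norm_exp_ofReal_mul_I]

theorem sb_cont (p : ℤ × ℂ) : Continuous (fun α => sb α p) := by
  unfold sb
  exact (sy_cont p.1).mul (Complex.continuous_exp.comp
    ((Complex.continuous_ofReal.comp (rr_cont p.2)).mul continuous_const))

theorem tau_cont (s : Cb) : Continuous (fun α => tau α s) := by
  unfold tau
  simp only [Finsupp.linearCombination_apply, Finsupp.sum, smul_eq_mul]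
  exact continuous_finsetSum _ fun p _ => continuous_const.mul (sb_cont p)

theorem tau_bd (s : Cb) : ∃ B : ℝ, 0 ≤ B ∧ ∀ α, ‖tau α s‖ ≤ B := by
  refine ⟨∑ p ∈ s.support, ‖s p‖, Finset.sum_nonneg fun _ _ => norm_nonneg _, fun α => ?_⟩
  unfold tau
  simp only [Finsupp.linearCombination_apply, Finsupp.sum, smul_eq_mul]
  refine (norm_sum_le _ _).trans (Finset.sum_le_sum fun p _ => ?_)
  rw [norm_mul, sb_norm, mul_one]

theorem PK_eq (K : ℕ) : PK K =
    Submodule.span ℂ ((fun p : ℤ × ℂ => (Finsupp.single p 1 : Cb)) '' {p | p.1.natAbs ≤ K}) := by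
  unfold PK
  rw [Finsupp.supported_eq_span_single]

theorem single_mem (K : ℕ) (p : ℤ × ℂ) (hp : p.1.natAbs ≤ K) (c : ℂ) :
    (Finsupp.single p c : Cb) ∈ PK K := Finsupp.single_mem_supported ℂ c hp

/-- a difference quotient -/
def dq (n : ℕ) (b : ℤ) (w v : ℂ) : Cb :=
  ((n : ℂ) + 1) • (Finsupp.single (b, w + ((1 / ((n : ℝ) + 1) : ℝ) : ℂ) * v) 1 -
    Finsupp.single (b, w) 1)

theorem dq_mem (n K : ℕ) (b : ℤ) (w v : ℂ) (hb : b.natAbs ≤ K) : dq n b w v ∈ PK K :=
  (PK K).smul_mem _ ((PK K).sub_mem (single_mem K _ hb 1) (single_mem K _ hb 1))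

theorem Y_dq (f : MW) (b : ℤ) (w v : ℂ) :
    Tendsto (fun n => Y f (dq n b w v)) atTop (𝓝 (fderiv ℝ (W 1 f b) w v)) := by
  have h := fd_lim (g := W 1 f b) ((W_smooth f b).differentiable (by simp)) w v
  refine h.congr fun n => ?_
  unfold dq
  rw [map_smul, map_sub, Y_single, Y_single, smul_eq_mul, one_mul, one_mul]

theorem rr_add (w v : ℂ) (t α : ℝ) : rr (w + (t : ℂ) * v) α = rr w α + t * rr v α := by
  unfold rr
  simp only [Complex.add_re, Complex.add_im, Complex.mul_re, Complex.mul_im, Complex.ofReal_re,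
    Complex.ofReal_im]
  ring

theorem tau_dq (n : ℕ) (b : ℤ) (w v : ℂ) (α : ℝ) (hv : |rr v α| ≤ 1) :
    ‖tau α (dq n b w v) - sb α (b, w) * ((rr v α : ℂ) * I)‖ ≤ 1 / ((n : ℝ) + 1) := by
  have hn : (0 : ℝ) < (n : ℝ) + 1 := by positivity
  have hnC : ((n : ℂ) + 1) ≠ 0 := by
    have : ((n : ℂ) + 1) = (((n : ℝ) + 1 : ℝ) : ℂ) := by push_cast; ring
    rw [this]; exact Complex.ofReal_ne_zero.2 hn.ne'
  set y : ℂ := ((1 / ((n : ℝ) + 1) * rr v α : ℝ) : ℂ) * I with hy
  have e1 : tau α (dq n b w v) = sb α (b, w) * (((n : ℂ) + 1) * (Complex.exp y - 1)) := by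
    unfold dq
    rw [map_smul, map_sub, tau_single, tau_single, smul_eq_mul, one_mul, one_mul]
    unfold sb
    simp only
    rw [rr_add]
    have : ((rr w α + 1 / ((n : ℝ) + 1) * rr v α : ℝ) : ℂ) * I = (rr w α : ℂ) * I + y := by
      rw [hy]; push_cast; ring
    rw [this, Complex.exp_add]
    ring
  have e2 : (rr v α : ℂ) * I = ((n : ℂ) + 1) * y := by
    rw [hy]
    push_cast
    field_simp
  rw [e1, e2, ← mul_sub, norm_mul, sb_norm, one_mul, ← mul_sub, norm_mul]
  have e3 : ‖((n : ℂ) + 1)‖ = (n : ℝ) + 1 := by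
    have : ((n : ℂ) + 1) = (((n : ℝ) + 1 : ℝ) : ℂ) := by push_cast; ring
    rw [this, Complex.norm_real, Real.norm_of_nonneg hn.le]
  have e4 : ‖y‖ ≤ 1 / ((n : ℝ) + 1) := by
    rw [hy, norm_mul, Complex.norm_I, mul_one, Complex.norm_real, Real.norm_eq_abs, abs_mul,
      abs_of_pos (by positivity)]
    have : (0:ℝ) ≤ 1 / ((n : ℝ) + 1) := by positivity
    nlinarith
  have e5 : (1 : ℝ) / ((n : ℝ) + 1) ≤ 1 := by
    rw [div_le_one hn]
    have : (0:ℝ) ≤ n := Nat.cast_nonneg n
    linarith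
  have e6 := Complex.norm_exp_sub_one_sub_id_le (x := y) (e4.trans e5)
  rw [e3]
  calc ((n : ℝ) + 1) * ‖Complex.exp y - 1 - y‖ ≤ ((n : ℝ) + 1) * ‖y‖ ^ 2 := by gcongr
    _ ≤ ((n : ℝ) + 1) * (1 / ((n : ℝ) + 1)) ^ 2 := by gcongr
    _ = 1 / ((n : ℝ) + 1) := by field_simp

/-- combinations which are well approximated by combinations of lower order -/
def good (K : ℕ) : Submodule ℂ Cb where
  carrier := {s | ∃ t : ℕ → Cb, (∀ n, t n ∈ PK K) ∧
    (∀ f : MW, Tendsto (fun n => Y f (t n)) atTop (𝓝 (Y f s))) ∧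
    ∃ C : ℝ, 0 ≤ C ∧ ∀ (n : ℕ) (α : ℝ), ‖tau α (t n) - tau α s‖ ≤ C * (1 / ((n : ℝ) + 1))}
  add_mem' := by
    rintro s s' ⟨t, h1, h2, C, h3, h4⟩ ⟨t', h1', h2', C', h3', h4'⟩
    refine ⟨fun n => t n + t' n, fun n => (PK K).add_mem (h1 n) (h1' n), fun f => ?_,
      C + C', by positivity, fun n α => ?_⟩
    · simp only [map_add]
      exact (h2 f).add (h2' f)
    · rw [map_add, map_add, add_sub_add_comm, add_mul]
      exact (norm_add_le _ _).trans (add_le_add (h4 n α) (h4' n α))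
  zero_mem' := ⟨fun _ => 0, fun n => (PK K).zero_mem, fun f => tendsto_const_nhds, 0, le_rfl,
    fun n α => by simp⟩
  smul_mem' := by
    rintro c s ⟨t, h1, h2, C, h3, h4⟩
    refine ⟨fun n => c • t n, fun n => (PK K).smul_mem c (h1 n), fun f => ?_,
      ‖c‖ * C, by positivity, fun n α => ?_⟩
    · simp only [map_smul, smul_eq_mul]
      exact (h2 f).const_mul c
    · rw [map_smul, map_smul, smul_eq_mul, smul_eq_mul, ← mul_sub, norm_mul, mul_assoc]
      exact mul_le_mul_of_nonneg_left (h4 n α) (norm_nonneg _)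

theorem rr_one (α : ℝ) : rr 1 α = Real.cos α := by unfold rr; simp

theorem rr_I (α : ℝ) : rr I α = Real.sin α := by unfold rr; simp

theorem sy_eq (α : ℝ) : sy α = (Real.cos α : ℂ) * I - I * ((Real.sin α : ℂ) * I) := by
  unfold Pool.Agent.Y265.RW.sy
  rw [show -(α : ℂ) * I = ((-α : ℝ) : ℂ) * I by push_cast; ring, Complex.exp_mul_I]
  push_cast
  rw [Complex.cos_neg, Complex.sin_neg]
  ring

theorem sy_inv (α : ℝ) : (sy α)⁻¹ = -((Real.cos α : ℂ) * I + I * ((Real.sin α : ℂ) * I)) := by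
  refine inv_eq_of_mul_eq_one_right ?_
  rw [sy_eq]
  have h : (Real.cos α : ℂ) ^ 2 + (Real.sin α : ℂ) ^ 2 = 1 := by
    have := Real.cos_sq_add_sin_sq α
    exact_mod_cast this
  have hI : I ^ 2 = -1 := Complex.I_sq
  have hI4 : I ^ 4 = 1 := Complex.I_pow_four
  linear_combination h - (Real.cos α : ℂ) ^ 2 * hI + (Real.sin α : ℂ) ^ 2 * hI4

theorem le_good (K : ℕ) : PK (K + 1) ≤ good K := by
  rw [PK_eq, Submodule.span_le]
  rintro _ ⟨⟨b, w⟩, hb, rfl⟩
  simp only [Set.mem_ofPred_eq] at hb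
  rcases Nat.lt_or_ge K b.natAbs with h | h
  · have h' : b = (K : ℤ) + 1 ∨ b = -((K : ℤ) + 1) := by omega
    rcases h' with rfl | rfl
    · refine ⟨fun n => dq n K w 1 - I • dq n K w I, fun n => ?_, fun f => ?_, 2, by norm_num,
        fun n α => ?_⟩
      · exact (PK K).sub_mem (dq_mem n K K w 1 (by simp)) ((PK K).smul_mem _
          (dq_mem n K K w I (by simp)))
      · simp only [map_sub, map_smul, smul_eq_mul]
        have := (Y_dq f K w 1).sub ((Y_dq f K w I).const_mul I)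
        convert this using 2
        rw [Y_single, one_mul, ← Dp_W f K w]
        unfold Pool.Agent.W745.RW.Dp Pool.Agent.W745.RW.dx Pool.Agent.W745.RW.dy
        simp
      · have h1 := tau_dq n K w 1 α (by rw [rr_one]; exact Real.abs_cos_le_one α)
        have h2 := tau_dq n K w I α (by rw [rr_I]; exact Real.abs_sin_le_one α)
        rw [rr_one] at h1
        rw [rr_I] at h2
        simp only [map_sub, map_smul, smul_eq_mul, tau_single, one_mul]
        have e : sb α ((K : ℤ) + 1, w) = sb α ((K : ℤ), w) * ((Real.cos α : ℂ) * I) -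
            I * (sb α ((K : ℤ), w) * ((Real.sin α : ℂ) * I)) := by
          unfold sb
          simp only
          rw [zpow_add₀ (sy_ne α), zpow_one]
          nth_rewrite 2 [sy_eq]
          ring
        rw [e]
        have e2 : ∀ A B a b : ℂ, (A - I * B) - (a - I * b) = (A - a) - I * (B - b) := by
          intros; ring
        rw [e2]
        refine (norm_sub_le _ _).trans ?_
        rw [norm_mul, Complex.norm_I, one_mul, two_mul]
        exact add_le_add h1 h2
    · refine ⟨fun n => -(dq n (-K) w 1 + I • dq n (-K) w I), fun n => ?_, fun f => ?_, 2,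
        by norm_num, fun n α => ?_⟩
      · exact (PK K).neg_mem ((PK K).add_mem (dq_mem n K (-K) w 1 (by simp))
          ((PK K).smul_mem _ (dq_mem n K (-K) w I (by simp))))
      · simp only [map_neg, map_add, map_smul, smul_eq_mul]
        have := ((Y_dq f (-K) w 1).add ((Y_dq f (-K) w I).const_mul I)).neg
        convert this using 2
        rw [Y_single, one_mul, neg_add', ← neg_eq_iff_eq_neg.2 (Dm_W f (-K) w)]
        unfold Pool.Agent.W745.RW.Dm Pool.Agent.W745.RW.dx Pool.Agent.W745.RW.dy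
        simp
      · have h1 := tau_dq n (-K) w 1 α (by rw [rr_one]; exact Real.abs_cos_le_one α)
        have h2 := tau_dq n (-K) w I α (by rw [rr_I]; exact Real.abs_sin_le_one α)
        rw [rr_one] at h1
        rw [rr_I] at h2
        simp only [map_neg, map_add, map_smul, smul_eq_mul, tau_single, one_mul]
        have e : sb α (-((K : ℤ) + 1), w) = -(sb α (-(K : ℤ), w) * ((Real.cos α : ℂ) * I) +
            I * (sb α (-(K : ℤ), w) * ((Real.sin α : ℂ) * I))) := by
          unfold sb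
          simp only
          rw [neg_add, zpow_add₀ (sy_ne α), zpow_neg_one, sy_inv]
          ring
        rw [e]
        have e2 : ∀ A B a b : ℂ, (-(A + I * B)) - (-(a + I * b)) = -((A - a) + I * (B - b)) := by
          intros; ring
        rw [e2, norm_neg]
        refine (norm_add_le _ _).trans ?_
        rw [norm_mul, Complex.norm_I, one_mul, two_mul]
        exact add_le_add h1 h2
  · refine ⟨fun _ => Finsupp.single (b, w) 1, fun n => single_mem K _ h 1,
      fun f => tendsto_const_nhds, 0, le_rfl, fun n α => by simp⟩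

theorem approx (K : ℕ) (s : Cb) (hs : s ∈ PK (K + 1)) : ∃ t : ℕ → Cb, (∀ n, t n ∈ PK K) ∧
    (∀ f : MW, Tendsto (fun n => Y f (t n)) atTop (𝓝 (Y f s))) ∧
    ∃ C : ℝ, 0 ≤ C ∧ ∀ (n : ℕ) (α : ℝ), ‖tau α (t n) - tau α s‖ ≤ C * (1 / ((n : ℝ) + 1)) :=
  le_good K hs

end

end Pool.Agent.N916.BR
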