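import Mathlib

set_option autoImplicit false

namespace Pool.Agent.N916.ToSeries

open Finset

variable {F : Type*} [Field F]

/-- `(q^2; q^2)_n` -/
def P {R : Type*} [CommRing R] (q : R) (n : ℕ) : R := ∏ i ∈ range n, (1 - q ^ (2 * (i + 1)))

lemma P_succ {R : Type*} [CommRing R] (q : R) (n : ℕ) :
    P q (n + 1) = P q n * (1 - q ^ (2 * (n + 1))) := by
  unfold P; rw [prod_range_succ]

/-- partial theta sum -/
def th {R : Type*} [CommRing R] (q : R) (r : ℕ) : R := ∑ i ∈ range (2 * r + 2), q ^ (i * (i + 1) / 2)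

lemma th_succ {R : Type*} [CommRing R] (q : R) (r : ℕ) :
    th q (r + 1) = th q r + q ^ ((2 * r + 3) * (r + 1)) * (1 + q ^ (2 * r + 3)) := by
  unfold th
  rw [show 2 * (r + 1) + 2 = 2 * r + 2 + 1 + 1 by ring, sum_range_succ, sum_range_succ]
  have h1 : (2 * r + 2) * (2 * r + 2 + 1) / 2 = (2 * r + 3) * (r + 1) := by
    apply Nat.div_eq_of_eq_mul_left (by norm_num); ring
  have h2 : (2 * r + 2 + 1) * (2 * r + 2 + 1 + 1) / 2 = (2 * r + 3) * (r + 1) + (2 * r + 3) := by
    apply Nat.div_eq_of_eq_mul_left (by norm_num); ring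
  rw [h1, h2, pow_add]
  ring

lemma th_zero {R : Type*} [CommRing R] (q : R) : th q 0 = 1 + q := by
  unfold th
  simp [sum_range_succ]

/-- `1 / (q^2;q^2)_{m-r}`, zero if `r > m` -/
def d (q : F) (m r : ℕ) : F := if r ≤ m then (P q (m - r))⁻¹ else 0

variable {q : F} (hq : ∀ i : ℕ, 0 < i → q ^ i ≠ 1)

include hq in
lemma P_ne (n : ℕ) : P q n ≠ 0 := by
  unfold P
  rw [prod_ne_zero_iff]
  intro i _
  exact sub_ne_zero.2 (Ne.symm (hq _ (by omega)))

include hq in
lemma d_succ (m r : ℕ) (h : r ≤ m + 1) :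
    d q m r = (1 - q ^ (2 * (m + 1 - r))) * d q (m + 1) r := by
  unfold d
  rcases Nat.lt_or_ge m r with h1 | h1
  · rw [if_neg (by omega), show m + 1 - r = 0 by omega]
    simp
  · rw [if_pos h1, if_pos h, show m + 1 - r = (m - r) + 1 by omega, P_succ]
    have h2 : (1 - q ^ (2 * (m - r + 1))) ≠ 0 := sub_ne_zero.2 (Ne.symm (hq _ (by omega)))
    have h3 := P_ne hq (m - r)
    field_simp

include hq in
lemma d_succ' (m r : ℕ) (h : r ≤ m) :
    d q m (r + 1) = (1 - q ^ (2 * (m - r))) * d q m r := by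
  unfold d
  rcases Nat.eq_or_lt_of_le h with rfl | h1
  · rw [if_neg (by omega)]
    simp
  · rw [if_pos (by omega), if_pos h, show m - r = (m - (r + 1)) + 1 by omega, P_succ]
    have h2 : (1 - q ^ (2 * (m - (r + 1) + 1))) ≠ 0 := sub_ne_zero.2 (Ne.symm (hq _ (by omega)))
    have h3 := P_ne hq (m - (r + 1))
    field_simp

include hq in
lemma Pinv_succ (n : ℕ) : (P q n)⁻¹ = (1 - q ^ (2 * (n + 1))) * (P q (n + 1))⁻¹ := by
  rw [P_succ]
  have h2 : (1 - q ^ (2 * (n + 1))) ≠ 0 := sub_ne_zero.2 (Ne.symm (hq _ (by omega)))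
  have h3 := P_ne hq n
  field_simp

/-! ### The row identity -/

/-- the summand of the row identity (without `θ_r`) -/
def V (q : F) (m r : ℕ) : F :=
  P q m * (1 - q ^ (2 * m + 1)) * (1 - q ^ (4 * r + 4)) * (-1) ^ r * q ^ (r ^ 2) * d q m r *
    (P q (m + r + 2))⁻¹

/-- first certificate -/
def W (q : F) (m r : ℕ) : F :=
  P q m * (-1) ^ r * q ^ (r ^ 2) *
    ((1 - q ^ (2 * r + 1)) * (q ^ (2 * m + 2) - q ^ (2 * (m + 1 - r)) - q ^ (2 * m + 2 * r + 4)
      + q ^ (4 * m + 6))) * d q (m + 1) r * (P q (m + r + 2))⁻¹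

include hq in
lemma cert1 (m r : ℕ) (h : r ≤ m + 1) : V q (m + 1) r - V q m r = W q m (r + 1) - W q m r := by
  have e1 := d_succ hq m r h
  have e2 := d_succ' hq (m + 1) r h
  have e3 : (P q (m + r + 2))⁻¹ = (1 - q ^ (2 * (m + r + 3))) * (P q (m + r + 3))⁻¹ :=
    Pinv_succ hq (m + r + 2)
  unfold V W
  rw [e1, e2, e3, P_succ, show m + 1 + r + 2 = m + r + 3 by ring,
    show m + (r + 1) + 2 = m + r + 3 by ring]
  generalize d q (m + 1) r = D
  generalize (P q (m + r + 3))⁻¹ = I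
  generalize P q m = A
  rcases Nat.eq_or_lt_of_le h with rfl | h1
  · -- r = m + 1
    simp only [Nat.sub_self, Nat.mul_zero, pow_zero, sub_self, zero_mul, mul_zero, sub_zero]
    ring
  · obtain ⟨t, rfl⟩ : ∃ t, m = r + t := ⟨m - r, by omega⟩
    rw [show r + t + 1 - r = t + 1 by omega, show r + t + 1 - (r + 1) = t by omega]
    ring

/-- second certificate -/
def Xc (q : F) (M r : ℕ) : F :=
  (-1) ^ r * q ^ (r * (3 * r - 1)) * (1 - q ^ (2 * r)) * q ^ (2 * M) * d q M r * (P q (M + r))⁻¹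

include hq in
lemma cert2 (m r : ℕ) (h : r ≤ m + 1) :
    q ^ (2 * r ^ 2 + r) * (1 + q ^ (2 * r + 1)) * W q m r =
      P q m * (Xc q (m + 1) (r + 1) - Xc q (m + 1) r) := by
  have e2 := d_succ' hq (m + 1) r h
  have e3 : (P q (m + 1 + r))⁻¹ = (1 - q ^ (2 * (m + r + 2))) * (P q (m + r + 2))⁻¹ := by
    rw [show m + 1 + r = m + r + 1 by ring]
    exact Pinv_succ hq (m + r + 1)
  unfold W Xc
  rw [e2, e3, show m + 1 + (r + 1) = m + r + 2 by ring]
  generalize d q (m + 1) r = D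
  generalize (P q (m + r + 2))⁻¹ = I
  generalize P q m = A
  obtain ⟨t, ht⟩ : ∃ t, m + 1 = r + t := ⟨m + 1 - r, by omega⟩
  rw [ht, show r + t - r = t by omega, show 2 * (m + r + 2) = 2 * (2 * r + t + 1) by omega,
    show 2 * m + 2 = 2 * (r + t) by omega, show 2 * m + 2 * r + 4 = 2 * (2 * r + t + 1) by omega,
    show 4 * m + 6 = 4 * (r + t) + 2 by omega]
  rcases r with _ | s
  · simp only [Nat.zero_mul, Nat.mul_zero, pow_zero, Nat.zero_add]
    norm_num
    ring
  · rw [show 3 * (s + 1) - 1 = 3 * s + 2 by omega, show 3 * (s + 1 + 1) - 1 = 3 * s + 5 by omega]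
    ring

include hq in
lemma cert2_sum (m : ℕ) :
    ∑ r ∈ range (m + 2), q ^ (2 * r ^ 2 + r) * (1 + q ^ (2 * r + 1)) * W q m r = 0 := by
  rw [sum_congr rfl (fun r hr => cert2 hq m r (by have := mem_range.1 hr; omega)), ← mul_sum,
    sum_range_sub]
  unfold Xc d
  rw [if_neg (by omega)]
  simp

lemma W_top (m : ℕ) : W q m (m + 2) = 0 := by
  unfold W d
  rw [if_neg (by omega)]
  ring

/-- summation by parts -/
lemma abel (f : ℕ → F) (m : ℕ) (h0 : f (m + 2) = 0) :
    ∑ r ∈ range (m + 2), th q r * (f (r + 1) - f r) =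
      - ∑ r ∈ range (m + 2), q ^ (2 * r ^ 2 + r) * (1 + q ^ (2 * r + 1)) * f r := by
  have key : ∀ n : ℕ, ∑ r ∈ range (n + 1), th q r * (f (r + 1) - f r) =
      th q n * f (n + 1) - ∑ r ∈ range (n + 1), q ^ (2 * r ^ 2 + r) * (1 + q ^ (2 * r + 1)) * f r := by
    intro n
    induction n with
    | zero => simp [th_zero]; ring
    | succ n ih =>
      rw [sum_range_succ, ih, sum_range_succ _ (n + 1), th_succ]
      rw [show 2 * (n + 1) ^ 2 + (n + 1) = (2 * n + 3) * (n + 1) by ring,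
        show 2 * (n + 1) + 1 = 2 * n + 3 by ring]
      ring
  rw [key (m + 1), h0]
  ring

include hq in
theorem row (m : ℕ) : ∑ r ∈ range (m + 1), V q m r * th q r = 1 := by
  induction m with
  | zero =>
    simp only [Nat.zero_add, sum_range_one, V, th_zero, d, P]
    have h1 : (1 - q ^ 2 : F) ≠ 0 := sub_ne_zero.2 (Ne.symm (hq _ (by omega)))
    have h2 : (1 - q ^ 4 : F) ≠ 0 := sub_ne_zero.2 (Ne.symm (hq _ (by omega)))
    simp [prod_range_succ]
    field_simp
    ring
  | succ m ih =>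
    have h1 : ∑ r ∈ range (m + 2), V q m r * th q r = 1 := by
      rw [sum_range_succ, ih]
      unfold V d
      rw [if_neg (by omega)]
      ring
    have h2 : ∑ r ∈ range (m + 2), (V q (m + 1) r * th q r - V q m r * th q r) = 0 := by
      rw [sum_congr rfl (fun r hr => show V q (m + 1) r * th q r - V q m r * th q r =
        th q r * (W q m (r + 1) - W q m r) by
          rw [← cert1 hq m r (by have := mem_range.1 hr; omega)]; ring),
        abel (W q m) m (W_top m), cert2_sum hq m, neg_zero]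
    rw [sum_sub_distrib, h1] at h2
    exact sub_eq_zero.1 h2

/-! ### The column identity -/

/-- column summand -/
def T (q : F) (m r : ℕ) : F :=
  q ^ (2 * (m - r)) * (1 - q ^ (2 * (r + 1))) ^ 2 * P q m ^ 2 * d q m r * (P q (m + r + 2))⁻¹

/-- boundary term -/
def u (q : F) (m s : ℕ) : F :=
  (1 - q ^ (4 * s + 2)) * q ^ (2 * (m - s)) * P q m ^ 2 * d q m s * (P q (m + s + 1))⁻¹

include hq in
lemma T_zero (m : ℕ) : T q m 0 = u q m 0 - u q (m + 1) 0 := by
  unfold T u d
  rw [if_pos (by omega), if_pos (by omega)]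
  simp only [Nat.sub_zero, Nat.zero_add, Nat.add_zero, Nat.mul_zero]
  rw [show m + 1 + 1 = m + 2 by ring]
  have e1 : P q (m + 1) = P q m * (1 - q ^ (2 * (m + 1))) := P_succ q m
  have e2 : P q (m + 2) = P q m * (1 - q ^ (2 * (m + 1))) * (1 - q ^ (2 * (m + 2))) := by
    rw [P_succ q (m + 1), e1]
  rw [e2, e1]
  have h1 : (1 - q ^ (2 * (m + 1)) : F) ≠ 0 := sub_ne_zero.2 (Ne.symm (hq _ (by omega)))
  have h2 : (1 - q ^ (2 * (m + 2)) : F) ≠ 0 := sub_ne_zero.2 (Ne.symm (hq _ (by omega)))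
  have h3 := P_ne hq m
  field_simp
  ring

include hq in
lemma cert3 (m r : ℕ) :
    T q m (r + 1) - T q m r = u q m (r + 1) - u q (m + 1) (r + 1) := by
  rcases Nat.lt_or_ge m r with h | h
  · unfold T u d
    rw [if_neg (by omega), if_neg (by omega), if_neg (by omega)]
    ring
  · have e1 := d_succ' hq m r h
    have e2 : d q (m + 1) (r + 1) = d q m r := by
      unfold d
      rw [if_pos h, if_pos (by omega), show m + 1 - (r + 1) = m - r by omega]
    have e3 : (P q (m + r + 2))⁻¹ = (1 - q ^ (2 * (m + r + 3))) * (P q (m + r + 3))⁻¹ :=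
      Pinv_succ hq (m + r + 2)
    unfold T u
    rw [e1, e2, P_succ q m, show m + (r + 1) + 2 = m + r + 3 by ring,
      show m + (r + 1) + 1 = m + r + 2 by ring, show m + 1 + (r + 1) + 1 = m + r + 3 by ring, e3]
    generalize d q m r = D
    generalize (P q (m + r + 3))⁻¹ = I
    generalize P q m = A
    rcases Nat.eq_or_lt_of_le h with rfl | h1
    · rw [show r + 1 - (r + 1) = 0 by omega, show r - (r + 1) = 0 by omega, Nat.sub_self]
      ring
    · obtain ⟨t, rfl⟩ : ∃ t, m = r + 1 + t := ⟨m - (r + 1), by omega⟩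
      rw [show r + 1 + t - (r + 1) = t by omega, show r + 1 + t - r = t + 1 by omega,
        show r + 1 + t + 1 - (r + 1) = t + 1 by omega]
      ring

include hq in
lemma T_eq (m r : ℕ) : T q m r = ∑ s ∈ range (r + 1), (u q m s - u q (m + 1) s) := by
  induction r with
  | zero => rw [sum_range_one]; exact T_zero hq m
  | succ r ih => rw [sum_range_succ, ← ih, ← cert3 hq]; ring

include hq in
theorem col (N r : ℕ) : ∑ m ∈ range N, T q m r = 1 - ∑ s ∈ range (r + 1), u q N s := by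
  rw [sum_congr rfl (fun m _ => T_eq hq m r), sum_comm,
    sum_congr rfl (fun s _ => sum_range_sub' (fun m => u q m s) N), sum_sub_distrib]
  congr 1
  rw [sum_range_succ', sum_eq_zero, zero_add]
  · unfold u d P
    have h1 : (1 - q ^ 2 : F) ≠ 0 := sub_ne_zero.2 (Ne.symm (hq _ (by omega)))
    simp
    field_simp
  · intro s _
    unfold u d
    rw [if_neg (by omega)]
    ring

/-! ### The finite double sum identity -/

include hq in
theorem finite_identity (N : ℕ) :
    ∑ m ∈ range N, q ^ (2 * m) * P q m * (1 - q ^ (2 * m + 1))⁻¹ =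
      ∑ r ∈ range N, (1 - q ^ (4 * r + 4)) * ((1 - q ^ (2 * (r + 1))) ^ 2)⁻¹ * (-1) ^ r *
        q ^ (r ^ 2 + 2 * r) * th q r * (1 - ∑ s ∈ range (r + 1), u q N s) := by
  have h1 : ∀ m, q ^ (2 * m) * P q m * (1 - q ^ (2 * m + 1))⁻¹ =
      ∑ r ∈ range (m + 1), (1 - q ^ (4 * r + 4)) * ((1 - q ^ (2 * (r + 1))) ^ 2)⁻¹ * (-1) ^ r *
        q ^ (r ^ 2 + 2 * r) * th q r * T q m r := by
    intro m
    have h0 : q ^ (2 * m) * P q m * (1 - q ^ (2 * m + 1))⁻¹ =
        q ^ (2 * m) * P q m * (1 - q ^ (2 * m + 1))⁻¹ * ∑ r ∈ range (m + 1), V q m r * th q r := by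
      rw [row hq m, mul_one]
    rw [h0, mul_sum]
    apply sum_congr rfl
    intro r hr
    have hr' : r ≤ m := by have := mem_range.1 hr; omega
    unfold V T
    have h3 : (1 - q ^ (2 * m + 1) : F) ≠ 0 := sub_ne_zero.2 (Ne.symm (hq _ (by omega)))
    have h4 : (1 - q ^ (2 * (r + 1)) : F) ≠ 0 := sub_ne_zero.2 (Ne.symm (hq _ (by omega)))
    obtain ⟨t, rfl⟩ : ∃ t, m = r + t := ⟨m - r, by omega⟩
    rw [show r + t - r = t by omega]
    field_simp
    ring
  have h2 : ∀ m ∈ range N, q ^ (2 * m) * P q m * (1 - q ^ (2 * m + 1))⁻¹ =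
      ∑ r ∈ range N, (1 - q ^ (4 * r + 4)) * ((1 - q ^ (2 * (r + 1))) ^ 2)⁻¹ * (-1) ^ r *
        q ^ (r ^ 2 + 2 * r) * th q r * T q m r := by
    intro m hm
    rw [h1]
    apply sum_subset
    · intro r hr
      rw [mem_range] at hm hr ⊢
      omega
    · intro r _ hr
      rw [mem_range] at hr
      unfold T d
      rw [if_neg (by omega)]
      ring
  rw [sum_congr rfl h2, sum_comm]
  apply sum_congr rfl
  intro r _
  rw [← mul_sum, col hq]

end Pool.Agent.N916.ToSeries
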