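import Mathlib
import Pool.Agent.N916.ToField

set_option autoImplicit false

namespace Pool.Agent.N916.ToSeries

open Finset PowerSeries

local instance : Fact (Nat.Prime 2) := ⟨Nat.prime_two⟩

/-- the variable in the fraction field -/
noncomputable def qq : FractionRing (ZMod 2)⟦X⟧ := algebraMap (ZMod 2)⟦X⟧ _ X

lemma qq_ne (i : ℕ) (hi : 0 < i) : qq ^ i ≠ 1 := by
  unfold qq
  rw [← map_pow, ← (algebraMap (ZMod 2)⟦X⟧ (FractionRing (ZMod 2)⟦X⟧)).map_one]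
  intro h
  have h1 := IsFractionRing.injective (ZMod 2)⟦X⟧ (FractionRing (ZMod 2)⟦X⟧) h
  have h2 := congrArg (coeff 0) h1
  rw [coeff_X_pow, if_neg (by omega)] at h2
  simp at h2

lemma map_P (n : ℕ) : algebraMap (ZMod 2)⟦X⟧ (FractionRing (ZMod 2)⟦X⟧) (P X n) = P qq n := by
  unfold P qq
  rw [map_prod]
  simp

lemma map_th (n : ℕ) : algebraMap (ZMod 2)⟦X⟧ (FractionRing (ZMod 2)⟦X⟧) (th X n) = th qq n := by
  unfold th qq
  rw [map_sum]
  simp

lemma constCoeff_P (n : ℕ) : constantCoeff (P (X : (ZMod 2)⟦X⟧) n) = 1 := by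
  unfold P
  rw [map_prod]
  simp

lemma map_inv_of {f : (ZMod 2)⟦X⟧} (hf : constantCoeff f = 1) :
    algebraMap (ZMod 2)⟦X⟧ (FractionRing (ZMod 2)⟦X⟧) f⁻¹ =
      (algebraMap (ZMod 2)⟦X⟧ (FractionRing (ZMod 2)⟦X⟧) f)⁻¹ := by
  have h1 : f * f⁻¹ = 1 := PowerSeries.mul_inv_cancel f (by rw [hf]; exact one_ne_zero)
  have h2 := congrArg (algebraMap (ZMod 2)⟦X⟧ (FractionRing (ZMod 2)⟦X⟧)) h1
  rw [map_mul, map_one] at h2
  exact eq_inv_of_mul_eq_one_right h2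

/-- boundary term as a power series -/
noncomputable def e (N s : ℕ) : (ZMod 2)⟦X⟧ :=
  (1 - X ^ (4 * s + 2)) * X ^ (2 * (N - s)) * P X N ^ 2 * (P X (N - s))⁻¹ * (P X (N + s + 1))⁻¹

lemma map_e (N s : ℕ) (h : s ≤ N) :
    algebraMap (ZMod 2)⟦X⟧ (FractionRing (ZMod 2)⟦X⟧) (e N s) = u qq N s := by
  unfold e u d
  rw [if_pos h]
  simp only [map_mul, map_sub, map_pow, map_one, map_inv_of (constCoeff_P _), map_P]
  rfl

lemma char_two : (2 : FractionRing (ZMod 2)⟦X⟧) = 0 := by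
  have h : (2 : (ZMod 2)⟦X⟧) = 0 := by
    have : (2 : (ZMod 2)⟦X⟧) = C (2 : ZMod 2) := rfl
    rw [this, show (2 : ZMod 2) = 0 from rfl, map_zero]
  have := congrArg (algebraMap (ZMod 2)⟦X⟧ (FractionRing (ZMod 2)⟦X⟧)) h
  rwa [map_zero, map_ofNat] at this

lemma char_two' : (2 : (ZMod 2)⟦X⟧) = 0 := by
  have : (2 : (ZMod 2)⟦X⟧) = C (2 : ZMod 2) := rfl
  rw [this, show (2 : ZMod 2) = 0 from rfl, map_zero]

/-- the finite identity in `(ZMod 2)⟦X⟧` -/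
theorem finite_mod2 (N : ℕ) :
    ∑ m ∈ range N, X ^ (2 * m) * P X m * (1 - X ^ (2 * m + 1))⁻¹ =
      ∑ r ∈ range N, (X : (ZMod 2)⟦X⟧) ^ (r ^ 2 + 2 * r) * th X r *
        (1 - ∑ s ∈ range (r + 1), e N s) := by
  apply IsFractionRing.injective (ZMod 2)⟦X⟧ (FractionRing (ZMod 2)⟦X⟧)
  rw [map_sum, map_sum]
  have h1 := finite_identity qq_ne N
  have h2 : ∀ m, algebraMap (ZMod 2)⟦X⟧ (FractionRing (ZMod 2)⟦X⟧)
      (X ^ (2 * m) * P X m * (1 - X ^ (2 * m + 1))⁻¹) =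
      qq ^ (2 * m) * P qq m * (1 - qq ^ (2 * m + 1))⁻¹ := by
    intro m
    rw [map_mul, map_mul, map_pow, map_P, map_inv_of (by simp)]
    simp only [map_sub, map_pow, map_one]
    rfl
  rw [sum_congr rfl (fun m _ => h2 m), h1]
  apply sum_congr rfl
  intro r hr
  rw [mem_range] at hr
  have h3 : (1 - qq ^ (4 * r + 4)) * ((1 - qq ^ (2 * (r + 1))) ^ 2)⁻¹ * (-1) ^ r = 1 := by
    have h4 : (1 - qq ^ (4 * r + 4)) = (1 - qq ^ (2 * (r + 1))) ^ 2 := by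
      have h6 : qq ^ (4 * r + 4) = (qq ^ (2 * (r + 1))) ^ 2 := by ring
      rw [h6]
      linear_combination (qq ^ (2 * (r + 1)) - (qq ^ (2 * (r + 1))) ^ 2) * char_two
    have h5 : (-1 : FractionRing (ZMod 2)⟦X⟧) = 1 := by linear_combination -char_two
    rw [h4, h5, one_pow, mul_one, mul_inv_cancel₀]
    exact pow_ne_zero _ (sub_ne_zero.2 (Ne.symm (qq_ne _ (by omega))))
  rw [h3, one_mul]
  simp only [map_mul, map_sub, map_pow, map_one, map_th, map_sum]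
  congr 2
  apply sum_congr rfl
  intro s hs
  rw [mem_range] at hs
  rw [map_e N s (by omega)]

lemma coeff_finite (N n : ℕ) (h : n < N) :
    coeff n (∑ m ∈ range N, X ^ (2 * m) * P X m * (1 - X ^ (2 * m + 1))⁻¹ : (ZMod 2)⟦X⟧) =
      ∑ r ∈ range N, ∑ i ∈ range (2 * r + 2),
        if n = r ^ 2 + 2 * r + i * (i + 1) / 2 then 1 else 0 := by
  rw [finite_mod2, map_sum]
  apply sum_congr rfl
  intro r hr
  rw [mem_range] at hr
  rw [mul_sub, mul_one, map_sub]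
  have h1 : coeff n ((X : (ZMod 2)⟦X⟧) ^ (r ^ 2 + 2 * r) * th X r * ∑ s ∈ range (r + 1), e N s) = 0 := by
    rw [mul_sum, map_sum]
    apply sum_eq_zero
    intro s hs
    rw [mem_range] at hs
    have h2 : (X : (ZMod 2)⟦X⟧) ^ (r ^ 2 + 2 * r) * th X r * e N s =
        X ^ (r ^ 2 + 2 * r + 2 * (N - s)) * (th X r * ((1 - X ^ (4 * s + 2)) * P X N ^ 2 *
          (P X (N - s))⁻¹ * (P X (N + s + 1))⁻¹)) := by
      unfold e
      rw [pow_add X (r ^ 2 + 2 * r)]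
      ring
    rw [h2, coeff_X_pow_mul', if_neg]
    omega
  rw [h1, sub_zero]
  unfold th
  rw [mul_sum, map_sum]
  apply sum_congr rfl
  intro i _
  rw [← pow_add, coeff_X_pow]

/-! ### The series `T_o` -/

/-- the `m`-th term `q^{2m} (-q;q)_{2m} / (q;q^2)_{m+1}` of `T_o(q)`. -/
noncomputable def toTerm (m : ℕ) : ℤ⟦X⟧ :=
  X ^ (2 * m) * (∏ k ∈ range (2 * m), (1 + X ^ (k + 1))) *
    invOfUnit (∏ k ∈ range (m + 1), (1 - X ^ (2 * k + 1))) 1

lemma prod_split (m : ℕ) : (∏ k ∈ range (2 * m), (1 + (X : (ZMod 2)⟦X⟧) ^ (k + 1))) =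
    (∏ k ∈ range m, (1 - X ^ (2 * k + 1))) * P X m := by
  unfold P
  induction m with
  | zero => simp
  | succ m ih =>
    rw [show 2 * (m + 1) = 2 * m + 1 + 1 by ring, prod_range_succ, prod_range_succ, ih,
      prod_range_succ, prod_range_succ, show 2 * m + 1 + 1 = 2 * (m + 1) by ring]
    have h : ∀ a : (ZMod 2)⟦X⟧, 1 + a = 1 - a := fun a => by linear_combination a * char_two'
    rw [h, h]
    ring

lemma map_toTerm (m : ℕ) : PowerSeries.map (Int.castRingHom (ZMod 2)) (toTerm m) =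
    X ^ (2 * m) * P X m * (1 - X ^ (2 * m + 1))⁻¹ := by
  have hc : constantCoeff (∏ k ∈ range (m + 1), (1 - (X : ℤ⟦X⟧) ^ (2 * k + 1))) = ((1 : ℤˣ) : ℤ) := by
    rw [map_prod]
    simp
  have h1 := mul_invOfUnit (∏ k ∈ range (m + 1), (1 - (X : ℤ⟦X⟧) ^ (2 * k + 1))) 1 hc
  have h2 := congrArg (PowerSeries.map (Int.castRingHom (ZMod 2))) h1
  rw [map_mul, map_one, map_prod] at h2
  simp only [map_sub, map_one, map_pow, map_X] at h2
  rw [prod_range_succ] at h2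
  unfold toTerm
  rw [map_mul, map_mul, map_prod, map_pow]
  simp only [map_add, map_one, map_pow, map_X]
  rw [prod_split]
  generalize PowerSeries.map (Int.castRingHom (ZMod 2))
    (invOfUnit (∏ k ∈ range (m + 1), (1 - (X : ℤ⟦X⟧) ^ (2 * k + 1))) 1) = I at h2 ⊢
  have h3 : (1 - (X : (ZMod 2)⟦X⟧) ^ (2 * m + 1)) * (1 - X ^ (2 * m + 1))⁻¹ = 1 :=
    PowerSeries.mul_inv_cancel _ (by simp)
  generalize (1 - (X : (ZMod 2)⟦X⟧) ^ (2 * m + 1))⁻¹ = J at h3 ⊢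
  generalize (∏ k ∈ range m, (1 - (X : (ZMod 2)⟦X⟧) ^ (2 * k + 1))) = B at h2 ⊢
  linear_combination X ^ (2 * m) * P X m * J * h2 - X ^ (2 * m) * P X m * B * I * h3

/-- `t_o(n)`, the coefficient of `q^n` in `T_o(q)`; the terms with `m > n` have order `> n`. -/
noncomputable def tO (n : ℕ) : ℤ := ∑ m ∈ range (n + 1), coeff n (toTerm m)

theorem tO_mod2 (n : ℕ) : ((tO n : ℤ) : ZMod 2) =
    ∑ r ∈ range (n + 1), ∑ i ∈ range (2 * r + 2),
        if n = r ^ 2 + 2 * r + i * (i + 1) / 2 then 1 else 0 := by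
  rw [← coeff_finite (n + 1) n (Nat.lt_succ_self n), map_sum]
  unfold tO
  rw [Int.cast_sum]
  apply sum_congr rfl
  intro m _
  rw [← map_toTerm, coeff_map]
  rfl

theorem tO_even (n : ℕ) (h : ¬ ∃ x y : ℤ, 8 * (n : ℤ) + 9 = x ^ 2 + 2 * y ^ 2) : Even (tO n) := by
  have h1 := tO_mod2 n
  rw [sum_eq_zero] at h1
  · rw [even_iff_two_dvd]
    exact (ZMod.intCast_zmod_eq_zero_iff_dvd (tO n) 2).1 h1
  · intro r _
    apply sum_eq_zero
    intro i _
    rw [if_neg]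
    intro hn
    apply h
    refine ⟨2 * i + 1, 2 * (r + 1), ?_⟩
    have h2 : 2 * (i * (i + 1) / 2) = i * (i + 1) := by
      rw [Nat.mul_div_cancel']
      exact (Nat.even_mul_succ_self i).two_dvd
    have h3 : (2 : ℤ) * ((i * (i + 1) / 2 : ℕ) : ℤ) = i * (i + 1) := by exact_mod_cast h2
    rw [hn]
    push_cast at h3 ⊢
    linear_combination 4 * h3

end Pool.Agent.N916.ToSeries
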